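import Mathlib.CategoryTheory.Category.Init
import Mathlib.Analysis.Calculus.FDeriv.Defs
import Mathlib.MeasureTheory.Integral.IntervalIntegral.Basic
import Mathlib.Analysis.CStarAlgebra.Classes
import Mathlib.Topology.Algebra.Module.LinearPMap

/-!
Definitions for sectorial operators, their holomorphic functional calculus, bounded imaginary
powers, R-sectoriality and C_0-semigroups. Operators are unbounded: `A : X →ₗ.[ℂ] X`.
-/

open MeasureTheory Filter Topology Set Complex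

namespace Pool.Agent.MP_a83649_an

/-- Unbounded (partially defined) linear operators on `X`. -/
abbrev Op (X : Type*) [NormedAddCommGroup X] [NormedSpace ℂ X] : Type _ := X →ₗ.[ℂ] X

/-- The complex space `L_p(μ)`. -/
abbrev LpC {Ω : Type*} [MeasurableSpace Ω] (p : ENNReal) (μ : Measure Ω) : Type _ := Lp ℂ p μ

variable {X : Type*} [NormedAddCommGroup X] [NormedSpace ℂ X]

/-- The open sector `Σ_ω = {z ≠ 0 : |arg z| < ω}`. -/
def sector (ω : ℝ) : Set ℂ := {z | z ≠ 0 ∧ |arg z| < ω}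

/-- `x` lies in the domain of `A` and `A x = y`. -/
def Maps (A : Op X) (x y : X) : Prop := ∃ h : x ∈ A.domain, A ⟨x, h⟩ = y

/-- `R` is a bounded two-sided inverse of `l - A`. -/
def IsResolvent (A : Op X) (l : ℂ) (R : X →L[ℂ] X) : Prop :=
  (∀ x : X, ∃ y : X, Maps A (R x) y ∧ l • R x - y = x) ∧
    ∀ x y : X, Maps A x y → R (l • x - y) = x

/-- The spectrum `σ(A)`. -/
def spec (A : Op X) : Set ℂ := {l | ¬ ∃ R, IsResolvent A l R}

open Classical in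
/-- The resolvent `R(l, A) = (l - A)⁻¹` (and `0` on the spectrum). -/
noncomputable def res (A : Op X) (l : ℂ) : X →L[ℂ] X :=
  if h : ∃ R, IsResolvent A l R then h.choose else 0

/-- `σ(A)` lies in the closed sector of angle `ω`, and `l R(l, A)` is bounded outside every
larger closed sector. -/
def SectorBound (A : Op X) (ω : ℝ) : Prop :=
  spec A ⊆ closure (sector ω) ∧
    ∀ ε : ℝ, 0 < ε → ∃ C : ℝ, ∀ l ∉ closure (sector (ω + ε)), ‖l • res A l‖ ≤ C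

/-- Sectorial operators: closed, dense domain, dense range, and the sector bound for some
angle in `(0, π)`. -/
def Sectorial (A : Op X) : Prop :=
  A.IsClosed ∧ Dense (A.domain : Set X) ∧ Dense {y : X | ∃ x : X, Maps A x y} ∧
    ∃ ω ∈ Ioo 0 Real.pi, SectorBound A ω

/-- The angle of sectoriality `ω(A)`. -/
noncomputable def angle (A : Op X) : ℝ := sInf {ω ∈ Ioo 0 Real.pi | SectorBound A ω}

/-- The class `H_0^∞(Σ_σ)`. -/
def H0 (σ : ℝ) (f : ℂ → ℂ) : Prop :=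
  DifferentiableOn ℂ f (sector σ) ∧ ∃ C ε : ℝ, 0 < C ∧ 0 < ε ∧
    ∀ z ∈ sector σ, ‖f z‖ ≤ C * ‖z‖ ^ ε * (1 + ‖z‖) ^ (-2 * ε)

/-- The integral `∫ f(l) R(l, A) dl` along the ray `l = r u`, `r` from `0` to `∞`. -/
noncomputable def rayInt (A : Op X) (f : ℂ → ℂ) (u : ℂ) : X →L[ℂ] X :=
  ∫ r in Ioi (0 : ℝ), (f (r * u) * u) • res A (r * u)

/-- `f(A) = (2πi)⁻¹ ∫ f(l) R(l, A) dl` over the boundary of `Σ_θ`, run from `∞ e^{iθ}` through
`0` to `∞ e^{-iθ}`. -/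
noncomputable def funCalc (A : Op X) (θ : ℝ) (f : ℂ → ℂ) : X →L[ℂ] X :=
  (2 * Real.pi * I)⁻¹ • (rayInt A f (exp (-θ * I)) - rayInt A f (exp (θ * I)))

/-- Bounded `H^∞`-calculus. -/
def BoundedHinfty (A : Op X) : Prop :=
  ∃ σ ∈ Ioo (angle A) Real.pi, ∃ θ ∈ Ioo (angle A) σ, ∃ C : ℝ, ∀ f : ℂ → ℂ, H0 σ f →
    ∀ B : ℝ, (∀ z ∈ sector σ, ‖f z‖ ≤ B) → ‖funCalc A θ f‖ ≤ C * B

/-- Bounded imaginary powers: with `ψ(z) = z / (1 + z)^2`, each
`A^{is} = ψ(A)⁻¹ (ψ z^{is})(A)` is a bounded operator `U s` on `X`, and these are uniformly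
bounded for `|s| ≤ 1`. -/
def BIP (A : Op X) : Prop :=
  ∃ θ ∈ Ioo (angle A) Real.pi, ∃ U : ℝ → X →L[ℂ] X,
    (∀ s : ℝ, funCalc A θ (fun z => z / (1 + z) ^ 2) ∘L U s =
      funCalc A θ (fun z => z / (1 + z) ^ 2 * z ^ (I * s))) ∧
    ∃ C : ℝ, ∀ s : ℝ, |s| ≤ 1 → ‖U s‖ ≤ C

/-- The Rademacher function `r_k(t) = (-1)^⌊2^k t⌋`. -/
noncomputable def rad (k : ℕ) (t : ℝ) : ℂ := (-1) ^ ⌊2 ^ k * t⌋₊

/-- The norm of `∑_{k=1}^n r_k x_k` in `L_2([0,1]; X)`. -/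
noncomputable def radNorm {n : ℕ} (x : Fin n → X) : ℝ :=
  √(∫ t in (0 : ℝ)..1, ‖∑ k : Fin n, rad (k + 1) t • x k‖ ^ 2)

/-- R-bounded sets of operators. -/
def RBounded (𝒯 : Set (X →L[ℂ] X)) : Prop :=
  ∃ C : ℝ, ∀ (n : ℕ) (T : Fin n → X →L[ℂ] X) (x : Fin n → X), (∀ k, T k ∈ 𝒯) →
    radNorm (fun k => T k (x k)) ≤ C * radNorm x

/-- R-sectoriality (R-analytic operators are the R-sectorial ones with `ω_R(A) < π/2`). -/
def RSectorial (A : Op X) : Prop :=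
  ∃ ω ∈ Ioo (angle A) Real.pi,
    RBounded {T | ∃ l ∉ closure (sector ω), T = l • res A l}

/-- `(T t)_{t ≥ 0}` is a `C_0`-semigroup with generator `G`. -/
def IsC0Generator (T : ℝ → X →L[ℂ] X) (G : Op X) : Prop :=
  T 0 = 1 ∧ (∀ s t : ℝ, 0 ≤ s → 0 ≤ t → T (s + t) = T s * T t) ∧
    (∀ x : X, ContinuousOn (fun t => T t x) (Ici 0)) ∧
    ∀ x y : X, Maps G x y ↔
      Tendsto (fun t : ℝ => (t : ℂ)⁻¹ • (T t x - x)) (𝓝[>] 0) (𝓝 y)

/-- `-A` generates a bounded `C_0`-semigroup whose operators map `P` into `P`. -/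
def NegGenerates (P : Set X) (A : Op X) : Prop :=
  ∃ T : ℝ → X →L[ℂ] X, IsC0Generator T (-A) ∧ (∀ t : ℝ, 0 ≤ t → ∀ x ∈ P, T t x ∈ P) ∧
    ∃ M : ℝ, ∀ t : ℝ, 0 ≤ t → ‖T t‖ ≤ M

/-- The a.e. nonnegative functions in complex `L_p(μ)`. -/
def posCone {Ω : Type*} [MeasurableSpace Ω] (p : ENNReal) (μ : Measure Ω) : Set (LpC p μ) :=
  {f | ∀ᵐ ω ∂μ, 0 ≤ (f ω).re ∧ (f ω).im = 0}

end Pool.Agent.MP_a83649_an
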