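import Mathlib.Topology.Sheaves.Presheaf
import Mathlib.Tactic.Monotonicity.Lemmas
import Mathlib.Algebra.Order.Star.Real
import Mathlib.Analysis.Complex.RemovableSingularity
import Mathlib.Analysis.SpecialFunctions.ImproperIntegrals
import Pool.Agent.MP_a83649_an.Defs

/-! The scalar Cauchy formula on the boundary of a sector. -/

open MeasureTheory Filter Topology Set Complex

namespace Pool.Agent.MP_a83649_an

/-- The constant in the lower bound for `‖l - d‖`. -/
noncomputable def kap (c : ℝ) : ℝ := √((1 - c) / 2)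

lemma kap_pos {c : ℝ} (hc : c < 1) : 0 < kap c := Real.sqrt_pos.2 (by linarith)

lemma kap_le_one {c : ℝ} (hc : -1 ≤ c) : kap c ≤ 1 := Real.sqrt_le_one.2 (by linarith)

lemma geom {c : ℝ} (hc : c < 1) (hc' : -1 ≤ c) {l : ℂ} (hl : l.re ≤ c * ‖l‖) {d : ℝ}
    (hd : 0 ≤ d) : kap c * (‖l‖ + d) ≤ ‖l - d‖ := by
  have h1 : (kap c) ^ 2 = (1 - c) / 2 := Real.sq_sqrt (by linarith)
  have h2 : ‖l - d‖ ^ 2 = ‖l‖ ^ 2 + d ^ 2 - 2 * d * l.re := by
    rw [Complex.sq_norm, Complex.sq_norm, Complex.normSq_apply, Complex.normSq_apply]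
    simp; ring
  have h3 : (kap c * (‖l‖ + d)) ^ 2 ≤ ‖l - d‖ ^ 2 := by
    rw [mul_pow, h1, h2]
    have := norm_nonneg l
    nlinarith [mul_nonneg (by linarith : 0 ≤ 1 + c) (sq_nonneg (‖l‖ - d)),
      mul_le_mul_of_nonneg_left hl hd]
  exact (pow_le_pow_iff_left₀ (mul_nonneg (kap_pos hc).le (by positivity)) (norm_nonneg _)
    two_ne_zero).1 h3

lemma integrableOn_of_bound {E : Type*} [NormedAddCommGroup E] {h : ℝ → E} {C ε : ℝ}
    (hε : 0 < ε) (hc : ContinuousOn h (Ioi 0))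
    (hb : ∀ r : ℝ, 0 < r → ‖h r‖ ≤ C * (r + 1) ^ (-1 - ε)) : IntegrableOn h (Ioi 0) := by
  have hi : IntegrableOn (fun r : ℝ => C * (r + 1) ^ (-1 - ε)) (Ioi 0) :=
    (integrableOn_add_rpow_Ioi_of_lt (by linarith) (by norm_num)).const_mul C
  refine Integrable.mono' hi (hc.aestronglyMeasurable measurableSet_Ioi) ?_
  filter_upwards [ae_restrict_mem measurableSet_Ioi] with r hr using hb r hr

lemma strip_zero (F : ℂ → ℂ) {θ : ℝ} (hθ : 0 ≤ θ)
    (hd : ∀ w : ℂ, |w.im| ≤ θ → DifferentiableAt ℂ F w)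
    (hi1 : Integrable fun u : ℝ => F (u + (-θ : ℝ) * I))
    (hi2 : Integrable fun u : ℝ => F (u + θ * I))
    (β : ℝ → ℝ) (hβ : Tendsto β atTop (𝓝 0))
    (hb : ∀ᶠ R : ℝ in atTop, ∀ v : ℝ, |v| ≤ θ →
      ‖F (R + v * I)‖ ≤ β R ∧ ‖F ((-R : ℝ) + v * I)‖ ≤ β R) :
    ∫ u : ℝ, F (u + (-θ : ℝ) * I) = ∫ u : ℝ, F (u + θ * I) := by
  have t1 := intervalIntegral_tendsto_integral hi1 tendsto_neg_atTop_atBot tendsto_id
  have t2 := intervalIntegral_tendsto_integral hi2 tendsto_neg_atTop_atBot tendsto_id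
  have t3 : ∀ g : ℝ → ℝ, (∀ᶠ R : ℝ in atTop, ∀ v : ℝ, |v| ≤ θ → ‖F (g R + v * I)‖ ≤ β R) →
      Tendsto (fun R : ℝ => ∫ v in (-θ)..θ, F (g R + v * I)) atTop (𝓝 0) := by
    intro g hg
    refine squeeze_zero_norm' (a := fun R => β R * |θ - -θ|) ?_ (by simpa using hβ.mul_const _)
    filter_upwards [hg] with R hR
    refine intervalIntegral.norm_integral_le_of_norm_le_const fun v hv => hR v ?_
    rw [uIoc_of_le (by linarith)] at hv
    exact abs_le.2 ⟨hv.1.le, hv.2⟩
  have t4 := t3 (fun R => R) (hb.mono fun R hR v hv => (hR v hv).1)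
  have t5 := t3 (fun R => -R) (hb.mono fun R hR v hv => (hR v hv).2)
  have t6 := ((t1.sub t2).add (t4.const_smul I)).sub (t5.const_smul I)
  have h0 : ∀ R : ℝ, (∫ u in (-R)..(id R), F (u + (-θ : ℝ) * I)) -
      (∫ u in (-R)..(id R), F (u + θ * I)) + I • (∫ v in (-θ)..θ, F (R + v * I)) -
      I • (∫ v in (-θ)..θ, F ((-R : ℝ) + v * I)) = 0 := by
    intro R
    have := Complex.integral_boundary_rect_eq_zero_of_differentiableOn F ⟨-R, -θ⟩ ⟨R, θ⟩ (by
      intro w hw
      refine (hd w ?_).differentiableWithinAt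
      have h2 := hw.2
      simp only [mem_preimage] at h2
      rw [uIcc_of_le (by linarith)] at h2
      exact abs_le.2 h2)
    simpa using this
  simp only [h0] at t6
  have := tendsto_nhds_unique tendsto_const_nhds t6
  simp only [smul_zero, add_zero, sub_zero] at this
  exact sub_eq_zero.1 this.symm

lemma integral_Ioi_eq_exp (g : ℝ → ℂ) :
    ∫ r in Ioi (0 : ℝ), g r = ∫ u : ℝ, Real.exp u • g (Real.exp u) := by
  have := integral_image_eq_integral_abs_deriv_smul (s := univ) (f := Real.exp) (f' := Real.exp)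
    MeasurableSet.univ (fun x _ => (Real.hasDerivAt_exp x).hasDerivWithinAt)
    Real.exp_injective.injOn g
  simpa [Real.range_exp, abs_of_pos (Real.exp_pos _)] using this

lemma integrable_exp_of_Ioi {g : ℝ → ℂ} (hg : IntegrableOn g (Ioi 0)) :
    Integrable fun u : ℝ => Real.exp u • g (Real.exp u) := by
  have := integrableOn_image_iff_integrableOn_abs_deriv_smul (s := univ) (f := Real.exp)
    (f' := Real.exp) MeasurableSet.univ (fun x _ => (Real.hasDerivAt_exp x).hasDerivWithinAt)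
    Real.exp_injective.injOn g
  simpa [Real.range_exp, abs_of_pos (Real.exp_pos _), hg] using this

lemma exp_mem_sector {σ : ℝ} (hσ : σ ≤ Real.pi) {w : ℂ} (hw : |w.im| < σ) :
    exp w ∈ sector σ := by
  refine ⟨exp_ne_zero w, ?_⟩
  have h := abs_lt.1 hw
  have : arg (exp w) = w.im := by
    rw [exp_eq_exp_re_mul_sin_add_cos]
    have := arg_mul_cos_add_sin_mul_I (r := Real.exp w.re) (Real.exp_pos _) (θ := w.im)
      ⟨by linarith, by linarith⟩
    simpa using this
  rwa [this]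

lemma ray_mem_sector {σ φ : ℝ} (hσ : σ ≤ Real.pi) (hφ : |φ| < σ) {r : ℝ} (hr : 0 < r) :
    (r : ℂ) * exp (φ * I) ∈ sector σ := by
  have := exp_mem_sector hσ (w := Real.log r + φ * I) (by simpa using hφ)
  rwa [exp_add, ← ofReal_exp, Real.exp_log hr] at this

lemma isOpen_sector {σ : ℝ} (hσ : σ ≤ Real.pi) : IsOpen (sector σ) := by
  rw [isOpen_iff_mem_nhds]
  intro z hz
  have hs : z ∈ slitPlane := by
    rw [mem_slitPlane_iff_arg]
    refine ⟨fun h => ?_, hz.1⟩
    have := hz.2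
    rw [h, abs_of_pos Real.pi_pos] at this
    linarith
  have h1 : ∀ᶠ w in 𝓝 z, |arg w| < σ :=
    (continuousAt_arg hs).abs.eventually_lt continuousAt_const hz.2
  have h2 : ∀ᶠ w in 𝓝 z, w ≠ 0 := eventually_ne_nhds hz.1
  filter_upwards [h1, h2] with w h1 h2 using ⟨h2, h1⟩

lemma ofReal_mem_sector {σ a : ℝ} (hσ : 0 < σ) (ha : 0 < a) : (a : ℂ) ∈ sector σ :=
  ⟨by exact_mod_cast ha.ne', by rw [arg_ofReal_of_nonneg ha.le]; simpa using hσ⟩

lemma add_ne_zero_of_mem_sector {σ a : ℝ} (hσ : σ ≤ Real.pi) (ha : 0 < a) {z : ℂ}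
    (hz : z ∈ sector σ) : z + a ≠ 0 := by
  intro h
  have h1 : z = ((-a : ℝ) : ℂ) := by push_cast; exact eq_neg_of_add_eq_zero_left h
  have := hz.2
  rw [h1, arg_ofReal_of_neg (by linarith), abs_of_pos Real.pi_pos] at this
  linarith

lemma abs_cos_lt_one {φ : ℝ} (h0 : 0 < |φ|) (h1 : |φ| < Real.pi) : |Real.cos φ| < 1 := by
  have hs : 0 < Real.sin |φ| := Real.sin_pos_of_pos_of_lt_pi h0 h1
  rw [← Real.cos_abs, ← sq_lt_one_iff_abs_lt_one]
  nlinarith [Real.sin_sq_add_cos_sq |φ|]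

lemma norm_ray (r φ : ℝ) (hr : 0 ≤ r) : ‖(r : ℂ) * exp (φ * I)‖ = r := by
  simp [norm_exp_ofReal_mul_I, abs_of_nonneg hr]

lemma re_ray (r φ : ℝ) : ((r : ℂ) * exp (φ * I)).re = r * Real.cos φ := by
  simp [exp_ofReal_mul_I_re, exp_ofReal_mul_I_im]

lemma im_ray (r φ : ℝ) : ((r : ℂ) * exp (φ * I)).im = r * Real.sin φ := by
  simp [exp_ofReal_mul_I_re, exp_ofReal_mul_I_im]

lemma ray_sub {φ : ℝ} (h0 : 0 < |φ|) (h1 : |φ| < Real.pi) {r d : ℝ} (hr : 0 ≤ r) (hd : 0 ≤ d) :
    kap |Real.cos φ| * (r + d) ≤ ‖(r : ℂ) * exp (φ * I) - d‖ := by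
  have := geom (abs_cos_lt_one h0 h1) (by linarith [abs_nonneg (Real.cos φ)])
    (l := (r : ℂ) * exp (φ * I)) (by
      rw [re_ray, norm_ray r φ hr, mul_comm]
      exact mul_le_mul_of_nonneg_right (le_abs_self _) hr) hd
  rwa [norm_ray r φ hr] at this

lemma ray_add {φ : ℝ} (h0 : 0 < |φ|) (h1 : |φ| < Real.pi) {r d : ℝ} (hr : 0 ≤ r) (hd : 0 ≤ d) :
    kap |Real.cos φ| * (r + d) ≤ ‖(r : ℂ) * exp (φ * I) + d‖ := by
  have := geom (abs_cos_lt_one h0 h1) (by linarith [abs_nonneg (Real.cos φ)])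
    (l := -((r : ℂ) * exp (φ * I))) (by
      rw [neg_re, re_ray, norm_neg, norm_ray r φ hr, mul_comm r, ← neg_mul]
      exact mul_le_mul_of_nonneg_right (neg_le_abs _) hr) hd
  rwa [norm_neg, norm_ray r φ hr, ← neg_add', norm_neg] at this

/-- The model kernel is integrable along a ray. -/
lemma model_integrable {φ : ℝ} (h0 : 0 < |φ|) (h1 : |φ| < Real.pi) {a : ℝ} (ha : 1 ≤ a) :
    IntegrableOn (fun r : ℝ => exp (φ * I) * (2 * a) /
      ((r * exp (φ * I) - a) * (r * exp (φ * I) + a))) (Ioi 0) := by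
  have hk := kap_pos (abs_cos_lt_one h0 h1)
  set κ := kap |Real.cos φ|
  have hsub : ∀ r : ℝ, 0 < r → κ * (r + 1) ≤ ‖(r : ℂ) * exp (φ * I) - a‖ := fun r hr =>
    le_trans (by gcongr) (ray_sub h0 h1 hr.le (by linarith))
  have hadd : ∀ r : ℝ, 0 < r → κ * (r + 1) ≤ ‖(r : ℂ) * exp (φ * I) + a‖ := fun r hr =>
    le_trans (by gcongr) (ray_add h0 h1 hr.le (by linarith))
  refine integrableOn_of_bound (C := 2 * a / κ ^ 2) one_pos ?_ ?_
  · refine ContinuousOn.div (by fun_prop) (by fun_prop) fun r hr => mul_ne_zero ?_ ?_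
    · exact norm_pos_iff.1 (lt_of_lt_of_le (by have := hr.out; positivity) (hsub r hr))
    · exact norm_pos_iff.1 (lt_of_lt_of_le (by have := hr.out; positivity) (hadd r hr))
  · intro r hr
    rw [norm_div, norm_mul, norm_mul _ (_ + _), norm_exp_ofReal_mul_I, one_mul]
    have e1 : ‖(2 * a : ℂ)‖ = 2 * a := by simp [abs_of_pos (by linarith : 0 < a)]
    have e2 : (r + 1) ^ (-1 - 1 : ℝ) = ((r + 1) ^ 2)⁻¹ := by
      rw [show (-1 - 1 : ℝ) = -(2 : ℕ) by norm_num, Real.rpow_neg (by linarith), Real.rpow_natCast]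
    rw [e1, e2]
    calc 2 * a / (‖(r : ℂ) * exp (φ * I) - a‖ * ‖(r : ℂ) * exp (φ * I) + a‖)
        ≤ 2 * a / ((κ * (r + 1)) * (κ * (r + 1))) := by
          gcongr
          · exact hsub r hr
          · exact hadd r hr
      _ = 2 * a / κ ^ 2 * ((r + 1) ^ 2)⁻¹ := by field_simp

lemma model_integral {φ : ℝ} (h0 : 0 < |φ|) (h1 : |φ| < Real.pi) {a : ℝ} (ha : 1 ≤ a)
    {s : ℝ} (hs : s = 1 ∨ s = -1) (hsφ : 0 < s * Real.sin φ) :
    ∫ r in Ioi (0 : ℝ), exp (φ * I) * (2 * a) /
      ((r * exp (φ * I) - a) * (r * exp (φ * I) + a)) = -s * Real.pi * I := by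
  have hk := kap_pos (abs_cos_lt_one h0 h1)
  set κ := kap |Real.cos φ|
  set u := exp (φ * I) with hu
  have hsub : ∀ r : ℝ, 0 ≤ r → (r : ℂ) * u - a ≠ 0 := fun r hr =>
    norm_pos_iff.1 (lt_of_lt_of_le (by positivity) (ray_sub h0 h1 hr (by linarith)))
  have hadd : ∀ r : ℝ, 0 ≤ r → (r : ℂ) * u + a ≠ 0 := fun r hr =>
    norm_pos_iff.1 (lt_of_lt_of_le (by positivity) (ray_add h0 h1 hr (by linarith)))
  have hs0 : (s : ℂ) ≠ 0 := by rcases hs with rfl | rfl <;> simp
  let q : ℂ → ℂ := fun z => -s * I * ((z * u - a) / (z * u + a))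
  have hq : ∀ r : ℝ, 0 ≤ r → q r ∈ slitPlane := by
    intro r hr
    rcases hr.eq_or_lt with rfl | hr
    · right
      have : (a : ℂ) ≠ 0 := by exact_mod_cast (by linarith : a ≠ 0)
      have e : q (0 : ℝ) = s * I := by
        simp only [q, ofReal_zero, zero_mul, zero_sub, zero_add, neg_div, div_self this]; ring
      rw [e]; rcases hs with rfl | rfl <;> simp
    · left
      have e : (q r).re = s * (2 * a * (r * Real.sin φ)) / normSq (r * u + a) := by
        have hn : normSq ((r : ℂ) * u + a) ≠ 0 := by simpa using hadd r hr.le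
        simp only [q]
        rw [← im_ray, ← hu]
        generalize (r : ℂ) * u = z at hn ⊢
        simp only [mul_re, neg_re, ofReal_re, I_re, neg_im, ofReal_im, I_im, mul_im, div_im,
          sub_re, sub_im, add_re, add_im]
        field_simp
        ring
      rw [e]
      have hn : 0 < normSq ((r : ℂ) * u + a) := normSq_pos.2 (hadd r hr.le)
      have : 0 < s * (2 * a * (r * Real.sin φ)) := by
        have : s * (2 * a * (r * Real.sin φ)) = 2 * a * r * (s * Real.sin φ) := by ring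
        rw [this]; have : 0 < a := by linarith
        positivity
      positivity
  have hder : ∀ r ∈ Ici (0 : ℝ), HasDerivAt (fun r : ℝ => log (q r))
      (u * (2 * a) / ((r * u - a) * (r * u + a))) r := by
    intro r hr
    have d1 : HasDerivAt q (-s * I * ((u * (r * u + a) - (r * u - a) * u) / (r * u + a) ^ 2)) r := by
      refine HasDerivAt.const_mul _ ?_
      have e1 : HasDerivAt (fun z : ℂ => z * u - a) u r := by
        simpa using ((hasDerivAt_id (r : ℂ)).mul_const u).sub_const (a : ℂ)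
      have e2 : HasDerivAt (fun z : ℂ => z * u + a) u r := by
        simpa using ((hasDerivAt_id (r : ℂ)).mul_const u).add_const (a : ℂ)
      exact e1.div e2 (hadd r hr)
    have d2 := (d1.clog (hq r hr)).comp_ofReal
    convert d2 using 1
    have := hsub r hr
    have := hadd r hr
    simp only [q]
    field_simp
    ring
  have hlim : Tendsto (fun r : ℝ => log (q r)) atTop (𝓝 (log (-s * I))) := by
    have hsl : -(s : ℂ) * I ∈ slitPlane := by right; rcases hs with rfl | rfl <;> simp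
    refine (continuousAt_clog hsl).tendsto.comp ?_
    have l1 : Tendsto (fun r : ℝ => (2 * a : ℂ) / (r * u + a)) atTop (𝓝 0) := by
      refine squeeze_zero_norm' (a := fun r => (2 * a / κ) * r⁻¹) ?_
        (by simpa using tendsto_inv_atTop_zero.const_mul (2 * a / κ))
      filter_upwards [eventually_gt_atTop 0] with r hr
      have e1 : ‖(2 * a : ℂ)‖ = 2 * a := by simp [abs_of_pos (by linarith : 0 < a)]
      rw [norm_div, e1]
      calc 2 * a / ‖(r : ℂ) * u + a‖ ≤ 2 * a / (κ * r) := by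
            gcongr
            exact le_trans (by gcongr; linarith) (ray_add h0 h1 hr.le (by linarith))
        _ = 2 * a / κ * r⁻¹ := by field_simp
    have l2 := (l1.const_sub 1).const_mul (-s * I : ℂ)
    simp only [sub_zero, mul_one] at l2
    refine l2.congr' ?_
    filter_upwards [eventually_ge_atTop 0] with r hr
    have := hadd r hr
    simp only [q]
    field_simp
    ring
  rw [integral_Ioi_of_hasDerivAt_of_tendsto' hder (model_integrable h0 h1 ha) hlim]
  have : (a : ℂ) ≠ 0 := by exact_mod_cast (by linarith : a ≠ 0)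
  have e : q (0 : ℝ) = s * I := by
    simp only [q, ofReal_zero, zero_mul, zero_sub, zero_add, neg_div, div_self this]; ring
  rw [e]
  rcases hs with rfl | rfl
  · simp [log_neg_I, log_I]; ring
  · simp [log_neg_I, log_I]; ring

lemma H0.bound {σ : ℝ} {f : ℂ → ℂ} (hf : H0 σ f) :
    ∃ C ε : ℝ, 0 < C ∧ 0 < ε ∧ ∀ z ∈ sector σ, ‖f z‖ ≤ C * (‖z‖ + 1) ^ (-ε) := by
  obtain ⟨-, C, ε, hC, hε, h⟩ := hf
  refine ⟨C, ε, hC, hε, fun z hz => (h z hz).trans ?_⟩
  have h1 : 0 < 1 + ‖z‖ := by positivity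
  have h2 : ‖z‖ ^ ε ≤ (1 + ‖z‖) ^ ε := by gcongr; linarith
  calc C * ‖z‖ ^ ε * (1 + ‖z‖) ^ (-2 * ε) ≤ C * (1 + ‖z‖) ^ ε * (1 + ‖z‖) ^ (-2 * ε) := by gcongr
    _ = C * (‖z‖ + 1) ^ (-ε) := by
      rw [mul_assoc, ← Real.rpow_add h1, add_comm 1]; congr 2; ring

lemma continuousOn_ray {σ φ : ℝ} (hσ : σ ≤ Real.pi) (hφ : |φ| < σ) {f : ℂ → ℂ}
    (hf : DifferentiableOn ℂ f (sector σ)) :
    ContinuousOn (fun r : ℝ => f (r * exp (φ * I))) (Ioi 0) :=
  hf.continuousOn.comp (by fun_prop) fun r hr => ray_mem_sector hσ hφ hr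

/-- A function with the `H_0^∞` bound times something of size `1 / (r + 1)` is integrable. -/
lemma integrable_ray_smul {E : Type*} [NormedAddCommGroup E] [NormedSpace ℂ E]
    {σ φ : ℝ} (hσ : σ ≤ Real.pi) (hφ : |φ| < σ) {f : ℂ → ℂ} (hf : H0 σ f) {R : ℝ → E}
    (hR : ContinuousOn R (Ioi 0)) {D : ℝ} (hD : ∀ r : ℝ, 0 < r → ‖R r‖ ≤ D * (r + 1)⁻¹) :
    IntegrableOn (fun r : ℝ => (f (r * exp (φ * I)) * exp (φ * I)) • R r) (Ioi 0) := by
  obtain ⟨C, ε, hC, hε, h⟩ := hf.bound
  refine integrableOn_of_bound (C := C * D) hε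
    (((continuousOn_ray hσ hφ hf.1).mul continuousOn_const).smul hR) fun r hr => ?_
  have h1 := h _ (ray_mem_sector hσ hφ hr)
  rw [norm_ray r φ hr.le] at h1
  rw [norm_smul, norm_mul, norm_exp_ofReal_mul_I, mul_one]
  calc ‖f (r * exp (φ * I))‖ * ‖R r‖ ≤ (C * (r + 1) ^ (-ε)) * (D * (r + 1)⁻¹) :=
        mul_le_mul h1 (hD r hr) (norm_nonneg _) (by positivity)
    _ = C * D * (r + 1) ^ (-1 - ε) := by
      rw [sub_eq_add_neg, Real.rpow_add (by linarith), Real.rpow_neg_one]; ring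

lemma scalar_integrable {σ φ : ℝ} (hσ : σ ≤ Real.pi) (h0 : 0 < |φ|) (hφ : |φ| < σ)
    {f : ℂ → ℂ} (hf : H0 σ f) {a : ℝ} (ha : 1 ≤ a) :
    IntegrableOn (fun r : ℝ => (f (r * exp (φ * I)) * exp (φ * I)) *
      (r * exp (φ * I) - a)⁻¹) (Ioi 0) := by
  have h1 : |φ| < Real.pi := by linarith
  have hk := kap_pos (abs_cos_lt_one h0 h1)
  have hsub : ∀ r : ℝ, 0 < r → kap |Real.cos φ| * (r + 1) ≤ ‖(r : ℂ) * exp (φ * I) - a‖ :=
    fun r hr => le_trans (by gcongr) (ray_sub h0 h1 hr.le (by linarith))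
  refine integrable_ray_smul (E := ℂ) hσ hφ hf (R := fun r : ℝ => (r * exp (φ * I) - a)⁻¹)
    (D := (kap |Real.cos φ|)⁻¹) ?_ ?_
  · refine ContinuousOn.inv₀ (by fun_prop) fun r hr => ?_
    exact norm_pos_iff.1 (lt_of_lt_of_le (by have := hr.out; positivity) (hsub r hr))
  · intro r hr
    rw [norm_inv, ← mul_inv]
    exact inv_anti₀ (by positivity) (hsub r hr)

/-- Cauchy's formula on the boundary of a sector. -/
theorem cauchy_sector {σ θ : ℝ} (hσ : σ ≤ Real.pi) (h0 : 0 < θ) (hθ : θ < σ)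
    {f : ℂ → ℂ} (hf : H0 σ f) {a : ℝ} (ha : 1 ≤ a) :
    (∫ r in Ioi (0 : ℝ), (f (r * exp ((-θ : ℝ) * I)) * exp ((-θ : ℝ) * I)) *
        (r * exp ((-θ : ℝ) * I) - a)⁻¹) -
      (∫ r in Ioi (0 : ℝ), (f (r * exp (θ * I)) * exp (θ * I)) * (r * exp (θ * I) - a)⁻¹) =
      2 * Real.pi * I * f a := by
  obtain ⟨C, ε, hC, hε, hb⟩ := hf.bound
  have ha0 : 0 < a := by linarith
  have hθπ : θ < Real.pi := by linarith
  let k : ℂ → ℂ := fun z => f z * (z + a)
  let G : ℂ → ℂ := fun z => dslope k a z / (z + a)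
  have hG : DifferentiableOn ℂ G (sector σ) := by
    refine DifferentiableOn.div ?_ (by fun_prop) fun z hz => add_ne_zero_of_mem_sector hσ ha0 hz
    rw [Complex.differentiableOn_dslope
      ((isOpen_sector hσ).mem_nhds (ofReal_mem_sector (by linarith) ha0))]
    exact hf.1.mul (by fun_prop)
  have hGe : ∀ z : ℂ, z - a ≠ 0 → z + a ≠ 0 →
      G z = f z * (z - a)⁻¹ - f a * (2 * a / ((z - a) * (z + a))) := by
    intro z h1 h2
    simp only [G, k]
    rw [dslope_of_ne _ (sub_ne_zero.1 h1), slope_def_field]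
    field_simp
    ring
  -- the function on each ray
  have hray : ∀ φ : ℝ, |φ| = θ → ∀ r ∈ Ioi (0 : ℝ), exp (φ * I) * G (r * exp (φ * I)) =
      (f (r * exp (φ * I)) * exp (φ * I)) * (r * exp (φ * I) - a)⁻¹ -
        f a * (exp (φ * I) * (2 * a) / ((r * exp (φ * I) - a) * (r * exp (φ * I) + a))) := by
    intro φ hφ r hr
    have h0' : 0 < |φ| := by rwa [hφ]
    have h1' : |φ| < Real.pi := by rwa [hφ]
    have hk := kap_pos (abs_cos_lt_one h0' h1')
    have := hr.out
    rw [hGe _ (norm_pos_iff.1 (lt_of_lt_of_le (by positivity) (ray_sub h0' h1' this.le ha0.le)))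
      (norm_pos_iff.1 (lt_of_lt_of_le (by positivity) (ray_add h0' h1' this.le ha0.le)))]
    ring
  have hint : ∀ φ : ℝ, |φ| = θ →
      IntegrableOn (fun r : ℝ => exp (φ * I) * G (r * exp (φ * I))) (Ioi 0) := by
    intro φ hφ
    refine IntegrableOn.congr_fun ?_ (fun r hr => (hray φ hφ r hr).symm) measurableSet_Ioi
    exact (scalar_integrable hσ (by rwa [hφ]) (by rwa [hφ]) hf ha).sub
      ((model_integrable (by rwa [hφ]) (by rwa [hφ]) ha).const_mul _)
  let F : ℂ → ℂ := fun w => exp w * G (exp w)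
  have hF : ∀ φ u : ℝ, F (u + φ * I) =
      Real.exp u • (exp (φ * I) * G (Real.exp u * exp (φ * I))) := by
    intro φ u
    simp only [F, exp_add, real_smul, ofReal_exp]; ring
  have hn : ∀ R v : ℝ, ‖exp (R + v * I)‖ = Real.exp R := by
    intro R v; rw [norm_exp]; simp
  have key : ∫ u : ℝ, F (u + (-θ : ℝ) * I) = ∫ u : ℝ, F (u + θ * I) := by
    refine strip_zero F h0.le ?_ ?_ ?_
      (fun R => (2 * C * Real.exp (-ε * R) + 8 * a * ‖f a‖ * Real.exp (-R)) +
        Real.exp (-R) * (2 * C / a + 8 * ‖f a‖ / a)) ?_ ?_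
    · intro w hw
      have hm := exp_mem_sector hσ (w := w) (by linarith)
      exact differentiableAt_exp.mul
        ((hG.differentiableAt ((isOpen_sector hσ).mem_nhds hm)).comp w differentiableAt_exp)
    · simp only [hF]
      exact integrable_exp_of_Ioi (hint (-θ) (by rw [abs_neg, abs_of_pos h0]))
    · simp only [hF]
      exact integrable_exp_of_Ioi (hint θ (abs_of_pos h0))
    · have l1 : Tendsto (fun R : ℝ => Real.exp (-R)) atTop (𝓝 0) := Real.tendsto_exp_neg_atTop_nhds_zero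
      have l2 : Tendsto (fun R : ℝ => Real.exp (-ε * R)) atTop (𝓝 0) := by
        have := l1.comp (tendsto_id.const_mul_atTop hε)
        refine this.congr fun R => ?_
        simp
      simpa using ((l2.const_mul (2 * C)).add (l1.const_mul (8 * a * ‖f a‖))).add
        (l1.mul_const (2 * C / a + 8 * ‖f a‖ / a))
    · have l1 : ∀ᶠ R : ℝ in atTop, 2 * a ≤ Real.exp R :=
        Real.tendsto_exp_atTop.eventually_ge_atTop _
      have l2 : ∀ᶠ R : ℝ in atTop, Real.exp (-R) ≤ a / 2 :=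
        Real.tendsto_exp_neg_atTop_nhds_zero.eventually_le_const (by linarith)
      filter_upwards [l1, l2] with R hR1 hR2 v hv
      have na : ‖(a : ℂ)‖ = a := by simp [abs_of_pos ha0]
      have gen : ∀ z ∈ sector σ, ∀ m : ℝ, 0 < m → m ≤ ‖z - a‖ → m ≤ ‖z + a‖ →
          ‖z * G z‖ ≤ ‖z‖ * (‖f z‖ / m + ‖f a‖ * (2 * a / m ^ 2)) := by
        intro z hz m hm h1 h2
        rw [hGe z (norm_pos_iff.1 (hm.trans_le h1)) (norm_pos_iff.1 (hm.trans_le h2)), norm_mul]
        gcongr
        refine (norm_sub_le _ _).trans (add_le_add ?_ ?_)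
        · rw [norm_mul, norm_inv, ← div_eq_mul_inv]; gcongr
        · rw [norm_mul, norm_div, norm_mul, norm_mul, na, sq]
          simp only [Complex.norm_ofNat]
          gcongr
      constructor
      · have hm := exp_mem_sector hσ (w := R + v * I) (by simpa using hv.trans_lt hθ)
        have hz := hn R v
        set z := exp (R + v * I)
        have hρ := Real.exp_pos R
        have h1 : Real.exp R / 2 ≤ ‖z - a‖ := by
          have := norm_sub_norm_le z a; rw [na, hz] at this; linarith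
        have h2 : Real.exp R / 2 ≤ ‖z + a‖ := by
          have := norm_sub_norm_le z (-a); rw [norm_neg, na, hz, sub_neg_eq_add] at this; linarith
        have h3 := gen z hm _ (by positivity) h1 h2
        have h4 : ‖f z‖ ≤ C * Real.exp (-ε * R) := by
          refine (hb z hm).trans ?_
          rw [hz, mul_comm (-ε), Real.exp_mul]
          gcongr ?_ * ?_
          exact Real.rpow_le_rpow_of_nonpos hρ (by linarith) (by linarith)
        rw [hz] at h3
        have h5 : Real.exp R * (‖f z‖ / (Real.exp R / 2) + ‖f a‖ * (2 * a / (Real.exp R / 2) ^ 2)) =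
            2 * ‖f z‖ + 8 * a * ‖f a‖ * Real.exp (-R) := by
          rw [Real.exp_neg]; field_simp; ring
        have h6 : 0 ≤ Real.exp (-R) * (2 * C / a + 8 * ‖f a‖ / a) := by positivity
        simp only [F]
        linarith
      · have hm := exp_mem_sector hσ (w := (-R : ℝ) + v * I) (by simpa using hv.trans_lt hθ)
        have hz := hn (-R) v
        set z := exp ((-R : ℝ) + v * I)
        have h1 : a / 2 ≤ ‖z - a‖ := by
          have := norm_sub_norm_le (a : ℂ) z; rw [na, hz, norm_sub_rev] at this; linarith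
        have h2 : a / 2 ≤ ‖z + a‖ := by
          have := norm_sub_norm_le (a : ℂ) (-z)
          rw [norm_neg, na, hz, sub_neg_eq_add, add_comm] at this; linarith
        have h3 := gen z hm _ (by positivity) h1 h2
        have h4 : ‖f z‖ ≤ C := by
          refine (hb z hm).trans ?_
          have : (‖z‖ + 1) ^ (-ε) ≤ 1 :=
            Real.rpow_le_one_of_one_le_of_nonpos (by linarith [norm_nonneg z]) (by linarith)
          nlinarith
        rw [hz] at h3
        have h5 : ‖f z‖ / (a / 2) + ‖f a‖ * (2 * a / (a / 2) ^ 2) ≤ 2 * C / a + 8 * ‖f a‖ / a := by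
          have e1 : ‖f z‖ / (a / 2) = 2 * ‖f z‖ / a := by field_simp
          have e2 : ‖f a‖ * (2 * a / (a / 2) ^ 2) = 8 * ‖f a‖ / a := by field_simp; ring
          rw [e1, e2]; gcongr
        have h6 : 0 ≤ 2 * C * Real.exp (-ε * R) + 8 * a * ‖f a‖ * Real.exp (-R) := by positivity
        have h7 := mul_le_mul_of_nonneg_left h5 (Real.exp_pos (-R)).le
        simp only [F]
        linarith
  simp only [hF] at key
  rw [← integral_Ioi_eq_exp (fun r => exp ((-θ : ℝ) * I) * G (r * exp ((-θ : ℝ) * I))),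
    ← integral_Ioi_eq_exp (fun r => exp (θ * I) * G (r * exp (θ * I)))] at key
  have hm : |(-θ)| = θ := by rw [abs_neg, abs_of_pos h0]
  have hp : |θ| = θ := abs_of_pos h0
  have hsin : 0 < Real.sin θ := Real.sin_pos_of_pos_of_lt_pi h0 hθπ
  rw [setIntegral_congr_fun measurableSet_Ioi (hray _ hm),
    setIntegral_congr_fun measurableSet_Ioi (hray _ hp),
    integral_sub (scalar_integrable hσ (by rwa [hm]) (by rwa [hm]) hf ha)
      ((model_integrable (by rwa [hm]) (by rwa [hm]) ha).const_mul _),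
    integral_sub (scalar_integrable hσ (by rwa [hp]) (by rwa [hp]) hf ha)
      ((model_integrable (by rwa [hp]) (by rwa [hp]) ha).const_mul _),
    integral_const_mul, integral_const_mul,
    model_integral (by rwa [hm]) (by rwa [hm]) ha (s := -1) (Or.inr rfl) (by simpa using hsin),
    model_integral (by rwa [hp]) (by rwa [hp]) ha (s := 1) (Or.inl rfl) (by simpa using hsin)]
    at key
  push_cast at key ⊢
  linear_combination key

end Pool.Agent.MP_a83649_an
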