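import Mathlib.Analysis.SpecialFunctions.Pow.Continuity
import Mathlib.MeasureTheory.Function.LpSpace.Basic
import Mathlib.Analysis.CStarAlgebra.Classes

/-! Banach spaces with `ℓ_q` coordinates, and `L_p` of the counting measure as an instance. -/

open MeasureTheory Filter Topology Set Finset
open scoped ENNReal

namespace Pool.Agent.MP_a83649_an

/-- Coordinates identifying `X` with `ℓ_q(ι)`. -/
structure Model (X : Type*) [NormedAddCommGroup X] [NormedSpace ℂ X] (ι : Type*) (q : ℝ) where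
  ev : X →ₗ[ℂ] (ι → ℂ)
  one_lt : 1 < q
  hasSum : ∀ x, HasSum (fun a => ‖ev x a‖ ^ q) (‖x‖ ^ q)
  surj : ∀ f : ι → ℂ, Summable (fun a => ‖f a‖ ^ q) → ∃ x, ev x = f

namespace Model

variable {X : Type*} [NormedAddCommGroup X] [NormedSpace ℂ X] {ι : Type*} {q : ℝ}
  (m : Model X ι q)

include m in
lemma pos : 0 < q := by linarith [m.one_lt]

lemma sum_le (x : X) (F : Finset ι) : ∑ a ∈ F, ‖m.ev x a‖ ^ q ≤ ‖x‖ ^ q :=
  sum_le_hasSum F (fun _ _ => by positivity) (m.hasSum x)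

lemma coord_le (x : X) (a : ι) : ‖m.ev x a‖ ≤ ‖x‖ := by
  have := m.sum_le x {a}
  rw [sum_singleton] at this
  exact (Real.rpow_le_rpow_iff (norm_nonneg _) (norm_nonneg _) m.pos).1 this

lemma norm_le {x : X} {M : ℝ} (hM : 0 ≤ M) (h : ∀ F : Finset ι, ∑ a ∈ F, ‖m.ev x a‖ ^ q ≤ M ^ q) :
    ‖x‖ ≤ M :=
  (Real.rpow_le_rpow_iff (norm_nonneg _) hM m.pos).1 (hasSum_le_of_sum_le (m.hasSum x) h)

lemma exists_of_le {f : ι → ℂ} {M : ℝ} (hM : 0 ≤ M)
    (h : ∀ F : Finset ι, ∑ a ∈ F, ‖f a‖ ^ q ≤ M ^ q) : ∃ x, m.ev x = f ∧ ‖x‖ ≤ M := by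
  obtain ⟨x, hx⟩ := m.surj f (summable_of_sum_le (fun _ => by positivity) h)
  exact ⟨x, hx, m.norm_le hM (by rwa [hx])⟩

lemma inj : Function.Injective m.ev := by
  rw [injective_iff_map_eq_zero]
  intro x hx
  have := m.norm_le (x := x) le_rfl (fun F => by simp [hx, Real.zero_rpow m.pos.ne'])
  exact norm_le_zero_iff.1 this

/-- The coordinate functionals. -/
noncomputable def evc (a : ι) : X →L[ℂ] ℂ :=
  LinearMap.mkContinuous ((LinearMap.proj a) ∘ₗ m.ev) 1 fun x => by simpa using m.coord_le x a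

@[simp] lemma evc_apply (a : ι) (x : X) : m.evc a x = m.ev x a := rfl

lemma exists_op (L : (ι → ℂ) →ₗ[ℂ] (ι → ℂ)) {C : ℝ} (hC : 0 ≤ C)
    (h : ∀ x : X, ∃ y, m.ev y = L (m.ev x) ∧ ‖y‖ ≤ C * ‖x‖) :
    ∃ T : X →L[ℂ] X, (∀ x, m.ev (T x) = L (m.ev x)) ∧ ‖T‖ ≤ C := by
  choose T h1 h2 using h
  let T' : X →ₗ[ℂ] X :=
    { toFun := T
      map_add' := fun x y => m.inj (by simp [h1])
      map_smul' := fun c x => m.inj (by simp [h1]) }
  exact ⟨T'.mkContinuous C h2, h1, T'.mkContinuous_norm_le hC h2⟩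

lemma exists_of_finite {f : ι → ℂ} (F : Finset ι) (h : ∀ a ∉ F, f a = 0) : ∃ x, m.ev x = f :=
  m.surj f (summable_of_ne_finset_zero (s := F) fun a ha => by
    simp [h a ha, Real.zero_rpow m.pos.ne'])

lemma exists_e (b : ι) : ∃ x, m.ev x = Set.indicator {b} 1 :=
  m.exists_of_finite {b} fun a ha => by
    simp only [Finset.mem_singleton] at ha; simp [ha]

/-- The unit vectors. -/
noncomputable def e (b : ι) : X := (m.exists_e b).choose

lemma ev_e [DecidableEq ι] (b : ι) : m.ev (m.e b) = Pi.single b 1 := by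
  rw [e, (m.exists_e b).choose_spec, Set.indicator_singleton]; rfl

lemma ev_sum_e [DecidableEq ι] (F : Finset ι) (f : ι → ℂ) (a : ι) :
    m.ev (∑ b ∈ F, f b • m.e b) a = if a ∈ F then f a else 0 := by
  simp [ev_e, Finset.sum_apply, Pi.single_apply]

lemma eq_sum_e {x : X} (F : Finset ι) (h : ∀ a ∉ F, m.ev x a = 0) :
    x = ∑ b ∈ F, m.ev x b • m.e b := by
  classical
  refine m.inj (funext fun a => ?_)
  rw [ev_sum_e]
  split_ifs with ha
  · rfl
  · exact h a ha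

lemma norm_rpow_of_finite {x : X} (F : Finset ι) (h : ∀ a ∉ F, m.ev x a = 0) :
    ‖x‖ ^ q = ∑ a ∈ F, ‖m.ev x a‖ ^ q :=
  (m.hasSum x).unique (hasSum_sum_of_ne_finset_zero fun a ha => by
    simp [h a ha, Real.zero_rpow m.pos.ne'])

lemma hasSum_e (x : X) : HasSum (fun b => m.ev x b • m.e b) x := by
  classical
  have h1 : ∀ F : Finset ι, ‖x - ∑ b ∈ F, m.ev x b • m.e b‖ =
      (‖x‖ ^ q - ∑ a ∈ F, ‖m.ev x a‖ ^ q) ^ q⁻¹ := by
    intro F
    have h2 : HasSum (fun a => if a ∈ F then ‖m.ev x a‖ ^ q else 0) (∑ a ∈ F, ‖m.ev x a‖ ^ q) := by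
      have := hasSum_sum_of_ne_finset_zero (L := SummationFilter.unconditional ι) (s := F)
        (f := fun a => if a ∈ F then ‖m.ev x a‖ ^ q else 0) (fun a ha => by simp [ha])
      rwa [Finset.sum_ite_mem, Finset.inter_self] at this
    have h3 := (m.hasSum x).sub h2
    have h4 := m.hasSum (x - ∑ b ∈ F, m.ev x b • m.e b)
    have h5 : (fun a => ‖m.ev (x - ∑ b ∈ F, m.ev x b • m.e b) a‖ ^ q) =
        fun a => ‖m.ev x a‖ ^ q - if a ∈ F then ‖m.ev x a‖ ^ q else 0 := by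
      funext a
      rw [map_sub, Pi.sub_apply, ev_sum_e]
      split_ifs <;> simp [Real.zero_rpow m.pos.ne']
    rw [h5] at h4
    rw [← h4.unique h3, Real.rpow_rpow_inv (norm_nonneg _) m.pos.ne']
  unfold HasSum
  rw [tendsto_iff_norm_sub_tendsto_zero]
  simp only [norm_sub_rev _ x, h1]
  have h6 := ((m.hasSum x).const_sub (‖x‖ ^ q)).rpow_const (p := q⁻¹)
    (Or.inr (inv_nonneg.2 m.pos.le))
  rwa [sub_self, Real.zero_rpow (inv_ne_zero m.pos.ne')] at h6

lemma dense_of_e (S : Submodule ℂ X) (h : ∀ b, m.e b ∈ S) : Dense (S : Set X) := fun x =>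
  mem_closure_of_tendsto (m.hasSum_e x)
    (Eventually.of_forall fun _ => S.sum_mem fun b _ => S.smul_mem _ (h b))

lemma tendsto_of_e {α : Type*} {l : Filter α} (T : α → X →L[ℂ] X) (T0 : X →L[ℂ] X) {C : ℝ}
    (hT : ∀ᶠ i in l, ‖T i‖ ≤ C) (hT0 : ‖T0‖ ≤ C)
    (h : ∀ b, Tendsto (fun i => T i (m.e b)) l (𝓝 (T0 (m.e b)))) (x : X) :
    Tendsto (fun i => T i x) l (𝓝 (T0 x)) := by
  let S : Submodule ℂ X :=
    { carrier := {x | Tendsto (fun i => T i x) l (𝓝 (T0 x))}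
      add_mem' := fun {x y} hx hy => by simpa using hx.add hy
      zero_mem' := by simpa using tendsto_const_nhds
      smul_mem' := fun c x hx => by simpa using hx.const_smul c }
  have hC : 0 ≤ C := (norm_nonneg _).trans hT0
  rw [Metric.tendsto_nhds]
  intro ε hε
  obtain ⟨y, hy, hxy⟩ := (m.dense_of_e S h).exists_dist_lt x (ε := ε / (3 * (C + 1)))
    (by positivity)
  have hy' : Tendsto (fun i => T i y) l (𝓝 (T0 y)) := hy
  rw [Metric.tendsto_nhds] at hy'
  filter_upwards [hT, hy' (ε / 3) (by positivity)] with i h1 h2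
  have hb : ∀ U : X →L[ℂ] X, ‖U‖ ≤ C → dist (U x) (U y) ≤ ε / 3 := by
    intro U hU
    calc dist (U x) (U y) ≤ ‖U‖ * dist x y := U.dist_le_opNorm x y
      _ ≤ (C + 1) * (ε / (3 * (C + 1))) := by gcongr; linarith
      _ = ε / 3 := by field_simp
  have := dist_triangle4 (T i x) (T i y) (T0 y) (T0 x)
  have h3 := hb _ h1
  have h4 := hb _ hT0
  rw [dist_comm] at h4
  linarith

end Model

section Count

variable {ι : Type*} [MeasurableSpace ι] [DiscreteMeasurableSpace ι]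
  {p : ℝ≥0∞} [Fact (1 ≤ p)]

omit [Fact (1 ≤ p)] in
lemma eLpNorm_count (hp0 : p ≠ 0) (hp : p ≠ ∞) (f : ι → ℂ) :
    eLpNorm f p Measure.count ^ p.toReal = ∑' a, ENNReal.ofReal (‖f a‖ ^ p.toReal) := by
  have hq : 0 < p.toReal := ENNReal.toReal_pos hp0 hp
  rw [eLpNorm_eq_lintegral_rpow_enorm_toReal hp0 hp, lintegral_count, one_div,
    ENNReal.rpow_inv_rpow hq.ne']
  refine tsum_congr fun a => ?_
  rw [← ofReal_norm, ENNReal.ofReal_rpow_of_nonneg (norm_nonneg _) hq.le]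

/-- `L_p` of the counting measure is `ℓ_p`. -/
noncomputable def countModel (hp1 : 1 < p) (hp : p ≠ ∞) :
    Model (Lp ℂ p (Measure.count : Measure ι)) ι p.toReal where
  ev :=
    { toFun := fun f => ⇑f
      map_add' := fun f g => funext (Measure.ae_count_iff.1 (Lp.coeFn_add f g))
      map_smul' := fun c f => funext (Measure.ae_count_iff.1 (Lp.coeFn_smul c f)) }
  one_lt := by
    rw [← ENNReal.toReal_one]
    exact (ENNReal.toReal_lt_toReal ENNReal.one_ne_top hp).2 hp1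
  hasSum := fun f => by
    have hp0 : p ≠ 0 := (zero_lt_one.trans hp1).ne'
    have hq : 0 < p.toReal := ENNReal.toReal_pos hp0 hp
    have h1 := eLpNorm_count hp0 hp f
    have h2 : ∑' a, ENNReal.ofReal (‖f a‖ ^ p.toReal) ≠ ∞ := by
      rw [← h1]
      exact ENNReal.rpow_ne_top_of_nonneg hq.le (Lp.eLpNorm_ne_top f)
    have h3 := ENNReal.hasSum_toReal h2
    rw [← ENNReal.tsum_toReal_eq (fun _ => ENNReal.ofReal_ne_top), ← h1] at h3
    simp only [ENNReal.toReal_ofReal (Real.rpow_nonneg (norm_nonneg _) _)] at h3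
    rw [Lp.norm_def, ENNReal.toReal_rpow]
    exact h3
  surj := fun f hf => by
    have hp0 : p ≠ 0 := (zero_lt_one.trans hp1).ne'
    have hq : 0 < p.toReal := ENNReal.toReal_pos hp0 hp
    have h1 := eLpNorm_count hp0 hp f
    rw [← ENNReal.ofReal_tsum_of_nonneg (fun _ => by positivity) hf] at h1
    have h2 : MemLp f p Measure.count := by
      refine ⟨(Measurable.of_discrete (f := f)).aestronglyMeasurable, ?_⟩
      rw [← ENNReal.rpow_lt_top_iff_of_pos hq, h1]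
      exact ENNReal.ofReal_lt_top
    exact ⟨h2.toLp f, funext (Measure.ae_count_iff.1 h2.coeFn_toLp)⟩

lemma countModel_ev (hp1 : 1 < p) (hp : p ≠ ∞) (f : Lp ℂ p (Measure.count : Measure ι)) :
    (countModel hp1 hp).ev f = ⇑f := rfl

end Count

end Pool.Agent.MP_a83649_an
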