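import Mathlib.RingTheory.PiTensorProduct
import Pool.Agent.MP_a83649_an.Cauchy
import Pool.Agent.MP_a83649_an.Space

/-! A formal functional calculus `g ↦ S⁻¹ g(D) S` with `S = 1 + C`, `C` nilpotent. -/

open MeasureTheory Filter Topology Set Complex

namespace Pool.Agent.MP_a83649_an

/-- The eigenvalues `d n = e^{π n}`. -/
noncomputable def dd (n : ℕ) : ℝ := Real.exp (Real.pi * n)

lemma one_le_dd (n : ℕ) : 1 ≤ dd n := Real.one_le_exp (by positivity)

lemma dd_pos (n : ℕ) : 0 < dd n := Real.exp_pos _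

lemma dd_mono : Monotone dd := fun a b h => by
  unfold dd; gcongr

lemma dd_cpow (n : ℕ) : (dd n : ℂ) ^ I = (-1) ^ n := by
  rw [cpow_def_of_ne_zero (by exact_mod_cast (dd_pos n).ne'), ← ofReal_log (dd_pos n).le, dd,
    Real.log_exp, ← exp_pi_mul_I, ← exp_nat_mul]
  congr 1; push_cast; ring

/-- Functions of the level that are bounded by `B` and of variation at most `B`. -/
def Good (g : ℕ → ℂ) (B : ℝ) : Prop :=
  (∀ n, ‖g n‖ ≤ B) ∧ ∃ φ : ℕ → ℝ, Antitone φ ∧ (∀ n, 0 ≤ φ n) ∧ (∀ n, φ n ≤ B) ∧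
    ∀ n k, ‖g n - g k‖ ≤ |φ n - φ k|

lemma Good.nonneg {g : ℕ → ℂ} {B : ℝ} (h : Good g B) : 0 ≤ B := (norm_nonneg _).trans (h.1 0)

lemma good_of_antitone {φ : ℕ → ℝ} {B : ℝ} (h : Antitone φ) (h0 : ∀ n, 0 ≤ φ n)
    (h1 : ∀ n, φ n ≤ B) : Good (fun n => (φ n : ℂ)) B :=
  ⟨fun n => by rw [norm_real, Real.norm_of_nonneg (h0 n)]; exact h1 n, φ, h, h0, h1,
    fun n k => by rw [← ofReal_sub, norm_real, Real.norm_eq_abs]⟩

lemma good_res {c : ℝ} (hc : c < 1) (hc' : -1 ≤ c) {l : ℂ} (hl : l.re ≤ c * ‖l‖) :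
    Good (fun n => (l - dd n)⁻¹) ((kap c ^ 2)⁻¹ * (‖l‖ + 1)⁻¹) := by
  have hk := kap_pos hc
  have hk1 := kap_le_one hc'
  have hg : ∀ n, kap c * (‖l‖ + dd n) ≤ ‖l - dd n‖ := fun n => geom hc hc' hl (dd_pos n).le
  have hp : ∀ n, 0 < ‖l‖ + dd n := fun n => by have := dd_pos n; positivity
  have hne : ∀ n, l - dd n ≠ 0 := fun n =>
    norm_pos_iff.1 (lt_of_lt_of_le (mul_pos hk (hp n)) (hg n))
  refine ⟨fun n => ?_, fun n => (kap c ^ 2)⁻¹ * (‖l‖ + dd n)⁻¹, fun a b h => ?_, fun n => ?_,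
    fun n => ?_, fun n k => ?_⟩
  · rw [norm_inv, ← mul_inv]
    refine inv_anti₀ (by positivity) (le_trans ?_ (hg n))
    have := one_le_dd n
    gcongr
    nlinarith
  · have := dd_mono h
    have := hp a
    dsimp only
    gcongr
  · have := hp n; positivity
  · have := one_le_dd n
    dsimp only
    gcongr
  · have e1 : (l - dd n)⁻¹ - (l - dd k)⁻¹ = ((dd n - dd k : ℝ) : ℂ) / ((l - dd n) * (l - dd k)) := by
      have := hne n; have := hne k; push_cast; field_simp; ring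
    have e2 : (kap c ^ 2)⁻¹ * (‖l‖ + dd n)⁻¹ - (kap c ^ 2)⁻¹ * (‖l‖ + dd k)⁻¹ =
        (dd k - dd n) / ((kap c * (‖l‖ + dd n)) * (kap c * (‖l‖ + dd k))) := by
      have := hp n; have := hp k; field_simp; ring
    have h3 : 0 < (kap c * (‖l‖ + dd n)) * (kap c * (‖l‖ + dd k)) :=
      mul_pos (mul_pos hk (hp n)) (mul_pos hk (hp k))
    dsimp only
    rw [e1, e2, norm_div, norm_mul, norm_real, Real.norm_eq_abs, abs_div, abs_sub_comm,
      abs_of_pos h3]
    have h4 := mul_pos hk (hp k)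
    gcongr
    · exact hg n
    · exact hg k

/-- The combinatorial data: levels and a nilpotent kernel with finite rows and columns whose
corner blocks are bounded on `ℓ_q`. -/
structure Sys (ι κ : Type*) (q : ℝ) where
  lev : ι → ℕ
  S : ι → Finset κ
  nb : ι → κ → ι
  c : ι → ℝ
  C0 : ℝ
  C0_nonneg : 0 ≤ C0
  nil : ∀ a, ∀ k ∈ S a, S (nb a k) = ∅
  sign : ∀ a, ∀ k ∈ S a, (c a ≤ 0 ∧ lev (nb a k) ≤ lev a) ∨ (0 ≤ c a ∧ lev a ≤ lev (nb a k))
  col : ∀ b, {a | ∃ k ∈ S a, nb a k = b}.Finite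
  bound : ∀ (φ : ℕ → ℝ) (B : ℝ), Antitone φ → (∀ n, 0 ≤ φ n) → (∀ n, φ n ≤ B) →
    ∀ (x : ι → ℝ) (M : ℝ), (∀ a, 0 ≤ x a) → (∀ F : Finset ι, ∑ a ∈ F, x a ^ q ≤ M) →
    ∀ F : Finset ι, ∑ a ∈ F,
      (∑ k ∈ S a, |c a| * |φ (lev a) - φ (lev (nb a k))| * x (nb a k)) ^ q ≤ (C0 * B) ^ q * M

namespace Sys

variable {ι κ : Type*} {q : ℝ} (s : Sys ι κ q)

/-- The formal operator `g(A)` on all functions `ι → ℂ`. -/
def P (g : ℕ → ℂ) : (ι → ℂ) →ₗ[ℂ] (ι → ℂ) where
  toFun x a := g (s.lev a) * x a +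
    ∑ k ∈ s.S a, s.c a * (g (s.lev a) - g (s.lev (s.nb a k))) * x (s.nb a k)
  map_add' x y := by
    funext a; simp only [Pi.add_apply, mul_add, Finset.sum_add_distrib]; ring
  map_smul' c x := by
    funext a
    simp only [Pi.smul_apply, smul_eq_mul, RingHom.id_apply, mul_add, Finset.mul_sum]
    congr 1
    · ring
    · exact Finset.sum_congr rfl fun _ _ => by ring

lemma P_apply (g : ℕ → ℂ) (x : ι → ℂ) (a : ι) : s.P g x a = g (s.lev a) * x a +
    ∑ k ∈ s.S a, s.c a * (g (s.lev a) - g (s.lev (s.nb a k))) * x (s.nb a k) := rfl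

lemma P_mul (g h : ℕ → ℂ) (x : ι → ℂ) : s.P g (s.P h x) = s.P (fun n => g n * h n) x := by
  funext a
  rw [P_apply, P_apply, P_apply, mul_add, Finset.mul_sum, add_assoc, ← Finset.sum_add_distrib,
    mul_assoc]
  congr 1
  refine Finset.sum_congr rfl fun k hk => ?_
  rw [P_apply, s.nil a k hk, Finset.sum_empty]
  ring

lemma P_const (z : ℂ) (x : ι → ℂ) : s.P (fun _ => z) x = z • x := by
  funext a; simp [P_apply]

lemma P_lin (u v : ℂ) (g h : ℕ → ℂ) (x : ι → ℂ) :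
    s.P (fun n => u * g n + v * h n) x = u • s.P g x + v • s.P h x := by
  funext a
  simp only [P_apply, Pi.add_apply, Pi.smul_apply, smul_eq_mul, mul_add, Finset.mul_sum]
  rw [add_add_add_comm, ← Finset.sum_add_distrib]
  congr 1
  · ring
  · exact Finset.sum_congr rfl fun _ _ => by ring

lemma P_smul (u : ℂ) (g : ℕ → ℂ) (x : ι → ℂ) : s.P (fun n => u * g n) x = u • s.P g x := by
  simpa using s.P_lin u 0 g g x

lemma P_sub (g h : ℕ → ℂ) (x : ι → ℂ) : s.P (fun n => g n - h n) x = s.P g x - s.P h x := by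
  simpa [sub_eq_add_neg] using s.P_lin 1 (-1) g h x

lemma P_tendsto {α : Type*} {l : Filter α} {g : α → ℕ → ℂ} {g0 : ℕ → ℂ}
    (h : ∀ n, Tendsto (fun i => g i n) l (𝓝 (g0 n))) (x : ι → ℂ) (a : ι) :
    Tendsto (fun i => s.P (g i) x a) l (𝓝 (s.P g0 x a)) :=
  ((h _).mul_const _).add (tendsto_finsetSum _ fun _ _ =>
    (((h _).sub (h _)).const_mul _).mul_const _)

lemma P_integral {μ : Measure ℝ} {g : ℝ → ℕ → ℂ} (h : ∀ n, Integrable (fun r => g r n) μ)
    (x : ι → ℂ) (a : ι) : ∫ r, s.P (g r) x a ∂μ = s.P (fun n => ∫ r, g r n ∂μ) x a := by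
  simp only [P_apply]
  have hi : ∀ k ∈ s.S a, Integrable (fun r =>
      s.c a * (g r (s.lev a) - g r (s.lev (s.nb a k))) * x (s.nb a k)) μ := fun _ _ =>
    (((h _).sub (h _)).const_mul _).mul_const _
  rw [integral_add ((h _).mul_const _) (integrable_finsetSum _ hi), integral_mul_const,
    integral_finsetSum _ hi]
  congr 1
  refine Finset.sum_congr rfl fun k _ => ?_
  rw [integral_mul_const, integral_const_mul, integral_sub (h _) (h _)]

lemma P_single [DecidableEq ι] (g : ℕ → ℂ) (b a : ι)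
    (ha : a ∉ insert b (s.col b).toFinset) : s.P g (Pi.single b 1) a = 0 := by
  simp only [Finset.mem_insert, Finite.mem_toFinset, mem_ofPred_eq, not_or, not_exists,
    not_and] at ha
  rw [P_apply, Pi.single_eq_of_ne ha.1, mul_zero, zero_add]
  exact Finset.sum_eq_zero fun k hk => by rw [Pi.single_eq_of_ne (ha.2 k hk), mul_zero]

variable {X : Type*} [NormedAddCommGroup X] [NormedSpace ℂ X] (m : Model X ι q)

lemma exists_Phi {g : ℕ → ℂ} {B : ℝ} (hg : Good g B) :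
    ∃ T : X →L[ℂ] X, (∀ x, m.ev (T x) = s.P g (m.ev x)) ∧ ‖T‖ ≤ (1 + s.C0) * B := by
  have hB := hg.nonneg
  have hC := s.C0_nonneg
  have hq := m.pos
  obtain ⟨h1, φ, hφ, hφ0, hφB, h2⟩ := hg
  refine m.exists_op _ (by positivity) fun x => ?_
  obtain ⟨y1, hy1, n1⟩ := m.exists_of_le (f := fun a => g (s.lev a) * m.ev x a) (M := B * ‖x‖)
    (by positivity) (fun F => by
      calc ∑ a ∈ F, ‖g (s.lev a) * m.ev x a‖ ^ q ≤ ∑ a ∈ F, B ^ q * ‖m.ev x a‖ ^ q := by
            refine Finset.sum_le_sum fun a _ => ?_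
            rw [← Real.mul_rpow hB (norm_nonneg _), norm_mul]
            gcongr
            exact h1 _
        _ ≤ (B * ‖x‖) ^ q := by
            rw [← Finset.mul_sum, Real.mul_rpow hB (norm_nonneg _)]
            gcongr
            exact m.sum_le x F)
  obtain ⟨y2, hy2, n2⟩ := m.exists_of_le (f := fun a => ∑ k ∈ s.S a,
      s.c a * (g (s.lev a) - g (s.lev (s.nb a k))) * m.ev x (s.nb a k)) (M := s.C0 * B * ‖x‖)
    (by positivity) (fun F => by
      rw [Real.mul_rpow (by positivity) (norm_nonneg _)]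
      refine le_trans (Finset.sum_le_sum fun a _ => ?_)
        (s.bound φ B hφ hφ0 hφB (fun a => ‖m.ev x a‖) _ (fun _ => norm_nonneg _) (m.sum_le x) F)
      gcongr
      refine (norm_sum_le _ _).trans (Finset.sum_le_sum fun k _ => ?_)
      rw [norm_mul, norm_mul, norm_real, Real.norm_eq_abs]
      gcongr
      exact h2 _ _)
  refine ⟨y1 + y2, ?_, (norm_add_le _ _).trans (by nlinarith)⟩
  rw [map_add, hy1, hy2]; rfl

open Classical in
/-- The bounded operator `g(A)` (when it exists). -/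
noncomputable def Phi (g : ℕ → ℂ) : X →L[ℂ] X :=
  if h : ∃ T : X →L[ℂ] X, ∀ x, m.ev (T x) = s.P g (m.ev x) then h.choose else 0

lemma Phi_eq {g : ℕ → ℂ} {T : X →L[ℂ] X} (h : ∀ x, m.ev (T x) = s.P g (m.ev x)) :
    s.Phi m g = T := by
  have h' : ∃ T : X →L[ℂ] X, ∀ x, m.ev (T x) = s.P g (m.ev x) := ⟨T, h⟩
  rw [Phi, dif_pos h']
  ext x
  exact m.inj (by rw [h'.choose_spec, h])

lemma ev_Phi {g : ℕ → ℂ} {B : ℝ} (hg : Good g B) (x : X) :
    m.ev (s.Phi m g x) = s.P g (m.ev x) := by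
  obtain ⟨T, h, -⟩ := s.exists_Phi m hg
  rw [s.Phi_eq m h, h]

lemma norm_Phi {g : ℕ → ℂ} {B : ℝ} (hg : Good g B) : ‖s.Phi m g‖ ≤ (1 + s.C0) * B := by
  obtain ⟨T, h, h'⟩ := s.exists_Phi m hg
  rwa [s.Phi_eq m h]

lemma Phi_tendsto {α : Type*} {l : Filter α} {g : α → ℕ → ℂ} {g0 : ℕ → ℂ} {B : ℝ}
    (hg : ∀ᶠ i in l, Good (g i) B) (hg0 : Good g0 B)
    (h : ∀ n, Tendsto (fun i => g i n) l (𝓝 (g0 n))) (x : X) :
    Tendsto (fun i => s.Phi m (g i) x) l (𝓝 (s.Phi m g0 x)) := by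
  classical
  refine m.tendsto_of_e (fun i => s.Phi m (g i)) _ (hg.mono fun i hi => s.norm_Phi m hi)
    (s.norm_Phi m hg0) (fun b => ?_) x
  have e : ∀ g : ℕ → ℂ, Good g B → s.Phi m g (m.e b) =
      ∑ a ∈ insert b (s.col b).toFinset, s.P g (Pi.single b 1) a • m.e a := by
    intro g hg
    rw [← m.ev_e, ← s.ev_Phi m hg]
    refine m.eq_sum_e _ fun a ha => ?_
    rw [s.ev_Phi m hg, m.ev_e, s.P_single g b a ha]
  rw [e g0 hg0]
  refine (tendsto_finsetSum _ fun a _ => (s.P_tendsto h _ a).smul_const _).congr' ?_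
  filter_upwards [hg] with i hi using (e _ hi).symm

/-- The graph of the operator. -/
noncomputable def graph : Submodule ℂ (X × X) where
  carrier := {z | m.ev z.2 = s.P (fun n => dd n) (m.ev z.1)}
  add_mem' := fun {x y} hx hy => by
    simp only [mem_ofPred_eq, Prod.snd_add, Prod.fst_add, map_add] at *; rw [hx, hy]
  zero_mem' := by simp
  smul_mem' := fun c x hx => by
    simp only [mem_ofPred_eq, Prod.smul_snd, Prod.smul_fst, map_smul] at *; rw [hx]

/-- The operator `A = S⁻¹ D S` on its maximal domain. -/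
noncomputable def op : Op X := (s.graph m).toLinearPMap

lemma op_graph : (s.op m).graph = s.graph m :=
  Submodule.toLinearPMap_graph_eq _ fun x hx h0 => m.inj (by
    have : m.ev x.2 = s.P (fun n => dd n) (m.ev x.1) := hx
    rw [this, h0]; simp)

lemma mem_graph {x y : X} :
    (x, y) ∈ (s.op m).graph ↔ m.ev y = s.P (fun n => dd n) (m.ev x) := by
  rw [op_graph]; rfl

lemma ev_op (x : (s.op m).domain) : m.ev (s.op m x) = s.P (fun n => dd n) (m.ev x) :=
  (s.mem_graph m).1 ((s.op m).mem_graph x)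

lemma op_eq {x y : X} (h : m.ev y = s.P (fun n => dd n) (m.ev x)) :
    ∃ hx : x ∈ (s.op m).domain, s.op m ⟨x, hx⟩ = y := by
  have h1 := (s.mem_graph m).2 h
  exact ⟨LinearPMap.mem_domain_of_mem_graph h1, ((LinearPMap.image_iff _).2 h1).symm⟩

lemma maps_iff {x y : X} : Maps (s.op m) x y ↔ m.ev y = s.P (fun n => dd n) (m.ev x) :=
  ⟨fun ⟨h1, h2⟩ => h2 ▸ s.ev_op m ⟨x, h1⟩, s.op_eq m⟩

lemma op_closed : (s.op m).IsClosed := by
  have : ((s.op m).graph : Set (X × X)) =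
      ⋂ a, {z | m.evc a z.2 = s.P (fun n => dd n) (m.ev z.1) a} := by
    ext ⟨x, y⟩
    simp only [SetLike.mem_coe, mem_graph, mem_iInter, mem_ofPred_eq, Model.evc_apply, funext_iff]
  rw [LinearPMap.IsClosed, this]
  refine isClosed_iInter fun a => isClosed_eq (by fun_prop) ?_
  simp only [P_apply, ← Model.evc_apply]
  fun_prop

lemma op_dense : Dense ((s.op m).domain : Set X) := by
  classical
  refine m.dense_of_e _ fun b => ?_
  obtain ⟨y, hy⟩ := m.exists_of_finite _ (s.P_single (fun n => dd n) b)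
  exact (s.op_eq m (by rw [hy, m.ev_e])).1

lemma isResolvent {c : ℝ} (hc : c < 1) (hc' : -1 ≤ c) {l : ℂ} (hl : l.re ≤ c * ‖l‖) :
    IsResolvent (s.op m) l (s.Phi m fun n => (l - dd n)⁻¹) := by
  have hg := good_res hc hc' hl
  have hne : ∀ n, l - dd n ≠ 0 := fun n => norm_pos_iff.1 (lt_of_lt_of_le
    (mul_pos (kap_pos hc) (by have := dd_pos n; positivity)) (geom hc hc' hl (dd_pos n).le))
  constructor
  · intro x
    obtain ⟨h1, h2⟩ := s.op_eq m (x := s.Phi m (fun n => (l - dd n)⁻¹) x)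
      (y := l • s.Phi m (fun n => (l - dd n)⁻¹) x - x) (by
        rw [map_sub, map_smul, s.ev_Phi m hg, P_mul]
        have : (fun n => (dd n : ℂ) * (l - dd n)⁻¹) = fun n => l * (l - dd n)⁻¹ + (-1) * 1 := by
          funext n; have := hne n; field_simp; ring
        rw [this, P_lin, P_const]; simp [sub_eq_add_neg])
    exact ⟨_, ⟨h1, h2⟩, by simp⟩
  · intro x y hxy
    refine m.inj ?_
    rw [s.ev_Phi m hg, map_sub, map_smul, (s.maps_iff m).1 hxy, map_sub, map_smul, P_mul, ← P_smul,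
      sub_eq_add_neg, ← neg_one_smul ℂ, ← one_smul ℂ (s.P _ _), ← P_lin]
    have : (fun n => 1 * (l * (l - dd n)⁻¹) + -1 * ((l - dd n)⁻¹ * dd n)) = fun _ => 1 := by
      funext n; have := hne n; field_simp; ring
    rw [this, P_const, one_smul]

end Sys

lemma IsResolvent.res_eq {X : Type*} [NormedAddCommGroup X] [NormedSpace ℂ X]
    {A : Op X} {l : ℂ} {R : X →L[ℂ] X} (h : IsResolvent A l R) : res A l = R := by
  have h' : ∃ R, IsResolvent A l R := ⟨R, h⟩
  rw [res, dif_pos h']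
  ext x
  obtain ⟨y, h1, h2⟩ := h.1 x
  have := h'.choose_spec.2 _ _ h1
  rwa [h2] at this

end Pool.Agent.MP_a83649_an
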