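import Mathlib.Analysis.Real.Pi.Bounds
import Pool.Agent.MP_a83649_an.Framework

/-! Sectoriality, the semigroup and the functional calculus of the operator `s.op m`. -/

open MeasureTheory Filter Topology Set Complex

namespace Pool.Agent.MP_a83649_an

lemma re_eq_norm_mul_cos (l : ℂ) : l.re = ‖l‖ * Real.cos |arg l| := by
  rw [Real.cos_abs, norm_mul_cos_arg]

lemma exists_cos {ω : ℝ} (hω : 0 < ω) :
    ∃ c : ℝ, c < 1 ∧ -1 ≤ c ∧ ∀ l ∉ sector ω, l.re ≤ c * ‖l‖ := by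
  have hπ := Real.pi_pos
  refine ⟨Real.cos (min ω Real.pi), ?_, Real.neg_one_le_cos _, fun l hl => ?_⟩
  · rw [← Real.cos_zero]
    exact Real.cos_lt_cos_of_nonneg_of_le_pi le_rfl (min_le_right _ _) (lt_min hω hπ)
  · by_cases h0 : l = 0
    · simp [h0]
    have h1 : ω ≤ |arg l| := not_lt.1 fun h => hl ⟨h0, h⟩
    rw [re_eq_norm_mul_cos, mul_comm]
    exact mul_le_mul_of_nonneg_right (Real.cos_le_cos_of_nonneg_of_le_pi (lt_min hω hπ).le
      (abs_arg_le_pi l) ((min_le_left _ _).trans h1)) (norm_nonneg _)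

lemma cos_le_of_mem_sector {ω : ℝ} (hω : ω ≤ Real.pi) {z : ℂ} (hz : z ∈ sector ω) :
    Real.cos ω * ‖z‖ ≤ z.re := by
  rw [re_eq_norm_mul_cos, mul_comm]
  exact mul_le_mul_of_nonneg_left
    (Real.cos_le_cos_of_nonneg_of_le_pi (abs_nonneg _) hω hz.2.le) (norm_nonneg _)

lemma neg_one_lt_cos {ω : ℝ} (h0 : 0 ≤ ω) (hω : ω < Real.pi) : -1 < Real.cos ω := by
  rw [← Real.cos_pi]
  exact Real.cos_lt_cos_of_nonneg_of_le_pi h0 le_rfl hω

lemma neg_notMem_closure {ω t : ℝ} (h0 : 0 ≤ ω) (hω : ω < Real.pi) (ht : 0 < t) :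
    ((-t : ℝ) : ℂ) ∉ closure (sector ω) := by
  intro h
  have h1 : closure (sector ω) ⊆ {z | Real.cos ω * ‖z‖ ≤ z.re} :=
    closure_minimal (fun z hz => cos_le_of_mem_sector hω.le hz)
      (isClosed_le (by fun_prop) (by fun_prop))
  have h2 := h1 h
  simp only [mem_ofPred_eq, norm_real, norm_neg, Real.norm_of_nonneg ht.le, ofReal_re] at h2
  nlinarith [neg_one_lt_cos h0 hω]

lemma sector_add {σ : ℝ} (h0 : 0 ≤ σ) (hσ : σ < Real.pi) :
    ∃ k : ℝ, 0 < k ∧ ∀ z ∈ sector σ, ∀ d : ℝ, 0 ≤ d → k * (‖z‖ + d) ≤ ‖(d : ℂ) + z‖ := by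
  have h1 := neg_one_lt_cos h0 hσ
  have h2 := Real.cos_le_one σ
  refine ⟨kap (-Real.cos σ), kap_pos (by linarith), fun z hz d hd => ?_⟩
  have := geom (c := -Real.cos σ) (by linarith) (by linarith) (l := -z) (by
    have := cos_le_of_mem_sector hσ.le hz
    rw [neg_re, norm_neg]; linarith) hd
  rwa [norm_neg, ← neg_add', norm_neg, add_comm z] at this

lemma norm_cpow_I_le (z : ℂ) : ‖z ^ I‖ ≤ Real.exp Real.pi := by
  by_cases h : z = 0
  · simp [h, zero_cpow I_ne_zero, (Real.exp_pos _).le]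
  rw [norm_cpow_of_ne_zero h]
  simp only [I_re, Real.rpow_zero, I_im, mul_one, one_div, ← Real.exp_neg]
  exact Real.exp_le_exp.2 (by linarith [neg_pi_lt_arg z])

lemma sector_subset_slitPlane {σ : ℝ} (hσ : σ ≤ Real.pi) {z : ℂ} (hz : z ∈ sector σ) :
    z ∈ slitPlane := by
  rw [mem_slitPlane_iff_arg]
  refine ⟨fun h => ?_, hz.1⟩
  have := hz.2
  rw [h, abs_of_pos Real.pi_pos] at this
  linarith

/-- The test functions `z / (1 + z) * n / (n + z) * w(z)`. -/
lemma H0_test {σ : ℝ} (h0 : 0 ≤ σ) (hσ : σ < Real.pi) {w : ℂ → ℂ}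
    (hw : DifferentiableOn ℂ w (sector σ)) {W : ℝ} (hW0 : 0 < W)
    (hW : ∀ z ∈ sector σ, ‖w z‖ ≤ W) :
    ∃ B : ℝ, ∀ n : ℝ, 1 ≤ n → H0 σ (fun z => z / (1 + z) * (n / (n + z)) * w z) ∧
      ∀ z ∈ sector σ, ‖z / (1 + z) * (n / (n + z)) * w z‖ ≤ B := by
  obtain ⟨k, hk, h⟩ := sector_add h0 hσ
  refine ⟨W / k ^ 2, fun n hn => ?_⟩
  have hb : ∀ z ∈ sector σ, ‖z / (1 + z) * (n / (n + z)) * w z‖ ≤
      ‖z‖ / (k * (‖z‖ + 1)) * (n / (k * (‖z‖ + n))) * W := by
    intro z hz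
    have h1 := h z hz 1 zero_le_one
    have h2 := h z hz n (by linarith)
    rw [ofReal_one] at h1
    rw [norm_mul, norm_mul, norm_div, norm_div, norm_real, Real.norm_of_nonneg (by linarith)]
    have := norm_nonneg z
    gcongr
    exact hW z hz
  refine ⟨⟨?_, W * n / k ^ 2, 1, by positivity, one_pos, fun z hz => (hb z hz).trans ?_⟩,
    fun z hz => (hb z hz).trans ?_⟩
  · refine DifferentiableOn.mul (DifferentiableOn.mul ?_ ?_) hw
    · refine DifferentiableOn.div (by fun_prop) (by fun_prop) fun z hz => ?_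
      have := add_ne_zero_of_mem_sector hσ.le one_pos hz
      rwa [ofReal_one, add_comm] at this
    · refine DifferentiableOn.div (by fun_prop) (by fun_prop) fun z hz => ?_
      have := add_ne_zero_of_mem_sector hσ.le (by linarith : 0 < n) hz
      rwa [add_comm] at this
  · have := norm_nonneg z
    have e2 : (1 + ‖z‖) ^ (-2 * 1 : ℝ) = ((‖z‖ + 1) ^ 2)⁻¹ := by
      rw [show (-2 * 1 : ℝ) = -(2 : ℕ) by norm_num, Real.rpow_neg (by linarith),
        Real.rpow_natCast, add_comm]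
    rw [e2, Real.rpow_one]
    calc ‖z‖ / (k * (‖z‖ + 1)) * (n / (k * (‖z‖ + n))) * W
        ≤ ‖z‖ / (k * (‖z‖ + 1)) * (n / (k * (‖z‖ + 1))) * W := by gcongr
      _ = _ := by field_simp
  · have := norm_nonneg z
    calc ‖z‖ / (k * (‖z‖ + 1)) * (n / (k * (‖z‖ + n))) * W
        ≤ (‖z‖ + 1) / (k * (‖z‖ + 1)) * ((‖z‖ + n) / (k * (‖z‖ + n))) * W := by
          gcongr <;> linarith
      _ = _ := by field_simp

lemma antitone_slope {u v : ℝ} (hu : 0 < u) (huv : u ≤ v) :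
    (1 - Real.exp (-v)) / v ≤ (1 - Real.exp (-u)) / u := by
  have := convexOn_exp.secant_mono (a := 0) (x := -v) (y := -u) (mem_univ _) (mem_univ _)
    (mem_univ _) (by linarith) (by linarith) (by linarith)
  simp only [Real.exp_zero, sub_zero] at this
  rwa [div_neg, div_neg, ← neg_div, ← neg_div, neg_sub, neg_sub] at this

namespace Sys

variable {ι κ : Type*} {q : ℝ} (s : Sys ι κ q)
variable {X : Type*} [NormedAddCommGroup X] [NormedSpace ℂ X] (m : Model X ι q)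

lemma res_eq {c : ℝ} (hc : c < 1) (hc' : -1 ≤ c) {l : ℂ} (hl : l.re ≤ c * ‖l‖) :
    res (s.op m) l = s.Phi m fun n => (l - dd n)⁻¹ := (s.isResolvent m hc hc' hl).res_eq

lemma sectorBound {ω : ℝ} (hω : 0 < ω) : SectorBound (s.op m) ω := by
  constructor
  · intro l hl
    obtain ⟨c, hc, hc', h⟩ := exists_cos hω
    by_contra h1
    exact hl ⟨_, s.isResolvent m hc hc' (h l fun h2 => h1 (subset_closure h2))⟩
  · intro ε hε
    obtain ⟨c, hc, hc', h⟩ := exists_cos (add_pos hω hε)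
    refine ⟨(1 + s.C0) * (kap c ^ 2)⁻¹, fun l hl => ?_⟩
    have h1 := h l fun h2 => hl (subset_closure h2)
    have h2 := s.norm_Phi m (good_res hc hc' h1)
    have := s.C0_nonneg
    have := kap_pos hc
    have := norm_nonneg l
    rw [s.res_eq m hc hc' h1, norm_smul]
    calc ‖l‖ * _ ≤ (‖l‖ + 1) * ((1 + s.C0) * ((kap c ^ 2)⁻¹ * (‖l‖ + 1)⁻¹)) := by
          gcongr; linarith
      _ = _ := by field_simp

lemma zero_notMem_spec : (0 : ℂ) ∉ spec (s.op m) := fun h =>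
  h ⟨_, s.isResolvent m (c := 0) one_pos (by norm_num) (by simp)⟩

lemma sectorial : Sectorial (s.op m) := by
  refine ⟨s.op_closed m, s.op_dense m, ?_, 1, ⟨one_pos, by linarith [Real.pi_gt_three]⟩,
    s.sectorBound m one_pos⟩
  refine Dense.mono (fun x _ => ?_) dense_univ
  obtain ⟨y, h1, h2⟩ := (s.isResolvent m (c := 0) (l := 0) one_pos (by norm_num) (by simp)).1 x
  rw [zero_smul, zero_sub] at h2
  refine ⟨-(s.Phi m (fun n => ((0 : ℂ) - dd n)⁻¹) x), (s.maps_iff m).2 ?_⟩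
  rw [map_neg, map_neg, ← (s.maps_iff m).1 h1, ← map_neg, h2]

lemma angle_eq : angle (s.op m) = 0 := by
  have : {ω ∈ Ioo 0 Real.pi | SectorBound (s.op m) ω} = Ioo 0 Real.pi := by
    ext ω
    exact ⟨fun h => h.1, fun h => ⟨h, s.sectorBound m h.1⟩⟩
  rw [angle, this, csInf_Ioo Real.pi_pos]

lemma good_exp {t : ℝ} (ht : 0 ≤ t) : Good (fun n => (Real.exp (-(t * dd n)) : ℂ)) 1 :=
  good_of_antitone (φ := fun n => Real.exp (-(t * dd n)))
    (fun a b h => by have := dd_mono h; dsimp only; gcongr) (fun n => (Real.exp_pos _).le)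
    (fun n => Real.exp_le_one_iff.2 (by have := dd_pos n; nlinarith))

/-- The semigroup `e^{-tA}`. -/
noncomputable def T (t : ℝ) : X →L[ℂ] X := s.Phi m fun n => (Real.exp (-(t * dd n)) : ℂ)

lemma ev_T {t : ℝ} (ht : 0 ≤ t) (x : X) :
    m.ev (s.T m t x) = s.P (fun n => (Real.exp (-(t * dd n)) : ℂ)) (m.ev x) :=
  s.ev_Phi m (good_exp ht) x

lemma norm_T {t : ℝ} (ht : 0 ≤ t) : ‖s.T m t‖ ≤ 1 + s.C0 := by
  have := s.norm_Phi m (good_exp ht)
  rwa [mul_one] at this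

lemma Phi_one : s.Phi m (fun _ => 1) = 1 := s.Phi_eq m fun x => by simp [P_const]

lemma T_pos {t : ℝ} (ht : 0 ≤ t) (x : X) (hx : ∀ a, 0 ≤ (m.ev x a).re ∧ (m.ev x a).im = 0)
    (a : ι) : 0 ≤ (m.ev (s.T m t x) a).re ∧ (m.ev (s.T m t x) a).im = 0 := by
  rw [s.ev_T m ht, P_apply]
  simp only [← ofReal_sub, ← ofReal_mul, add_re, add_im, re_sum, im_sum, re_ofReal_mul,
    im_ofReal_mul, fun a => (hx a).2, mul_zero, Finset.sum_const_zero, add_zero, and_true]
  refine add_nonneg (mul_nonneg (Real.exp_pos _).le (hx a).1)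
    (Finset.sum_nonneg fun k hk => mul_nonneg ?_ (hx _).1)
  have anti : Antitone fun n => Real.exp (-(t * dd n)) := fun a b h => by
    have := dd_mono h; dsimp only; gcongr
  rcases s.sign a k hk with ⟨h1, h2⟩ | ⟨h1, h2⟩
  · exact mul_nonneg_of_nonpos_of_nonpos h1 (sub_nonpos.2 (anti h2))
  · exact mul_nonneg h1 (sub_nonneg.2 (anti h2))

lemma hasDeriv_aux (d : ℝ) :
    Tendsto (fun t : ℝ => t⁻¹ * (Real.exp (-(t * d)) - 1)) (𝓝[>] 0) (𝓝 (-d)) := by
  have h : HasDerivAt (fun t : ℝ => Real.exp (-(t * d))) (-d) 0 := by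
    simpa using ((hasDerivAt_id (0 : ℝ)).mul_const d).neg.exp
  simpa using h.tendsto_slope_zero_right

lemma isC0Generator : IsC0Generator (s.T m) (-s.op m) := by
  have hgraph : ∀ x y : X, Maps (-s.op m) x y ↔
      m.ev y = -s.P (fun n => dd n) (m.ev x) := by
    intro x y
    constructor
    · rintro ⟨h1, h2⟩
      rw [← h2, LinearPMap.neg_apply, map_neg]
      exact congrArg _ (s.ev_op m ⟨x, h1⟩)
    · intro h
      obtain ⟨h1, h2⟩ := s.op_eq m (x := x) (y := -y) (by rw [map_neg, h, neg_neg])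
      refine ⟨h1, ?_⟩
      rw [LinearPMap.neg_apply]
      exact neg_eq_iff_eq_neg.2 h2
  have hq : ∀ t : ℝ, 0 < t → ∀ x : X, m.ev ((t : ℂ)⁻¹ • (s.T m t x - x)) =
      s.P (fun n => ((t⁻¹ * (Real.exp (-(t * dd n)) - 1) : ℝ) : ℂ)) (m.ev x) := by
    intro t ht x
    rw [map_smul, map_sub, s.ev_T m ht.le]
    have : (fun n => ((t⁻¹ * (Real.exp (-(t * dd n)) - 1) : ℝ) : ℂ)) =
        fun n => (t : ℂ)⁻¹ * (Real.exp (-(t * dd n)) : ℂ) + (-(t : ℂ)⁻¹) * 1 := by
      funext n; rw [ofReal_mul, ofReal_sub, ofReal_inv, ofReal_one]; ring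
    rw [this, P_lin, P_const, one_smul, smul_sub, neg_smul, sub_eq_add_neg]
  refine ⟨?_, fun u t hu ht => ?_, fun x t ht => ?_, fun x y => ?_⟩
  · simpa [T] using s.Phi_one m
  · refine s.Phi_eq m fun x => ?_
    rw [mul_apply_eq_comp, s.ev_T m hu, s.ev_T m ht, P_mul]
    congr 2
    funext n
    rw [← ofReal_mul, ← Real.exp_add]; congr 2; ring
  · refine s.Phi_tendsto m (B := 1) ?_ (good_exp ht) (fun n => ?_) x
    · filter_upwards [self_mem_nhdsWithin] with u hu using good_exp hu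
    · refine tendsto_nhdsWithin_of_tendsto_nhds (Continuous.tendsto ?_ t)
      fun_prop
  · rw [hgraph]
    constructor
    · intro h
      have hg : ∀ t : ℝ, 0 < t →
          Good (fun n => (((1 - Real.exp (-(t * dd n))) / (t * dd n) : ℝ) : ℂ)) 1 := by
        intro t ht
        have hp : ∀ n, 0 < t * dd n := fun n => mul_pos ht (dd_pos n)
        refine good_of_antitone (φ := fun n => (1 - Real.exp (-(t * dd n))) / (t * dd n))
          (fun a b h => antitone_slope (hp a) (by have := dd_mono h; gcongr)) (fun n => ?_)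
          (fun n => ?_)
        · exact div_nonneg (sub_nonneg.2 (Real.exp_le_one_iff.2 (by linarith [hp n]))) (hp n).le
        · rw [div_le_one (hp n)]
          linarith [Real.add_one_le_exp (-(t * dd n))]
      have h1 := s.Phi_tendsto m (l := 𝓝[>] (0 : ℝ)) (B := 1) (g0 := fun _ => 1)
        (g := fun t n => (((1 - Real.exp (-(t * dd n))) / (t * dd n) : ℝ) : ℂ))
        (by filter_upwards [self_mem_nhdsWithin] with t ht using hg t ht)
        (by simpa using good_exp (t := 0) le_rfl) (fun n => by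
          have h2 := (hasDeriv_aux (dd n)).mul_const (-(dd n)⁻¹)
          have h3 : -dd n * -(dd n)⁻¹ = 1 := by have := dd_pos n; field_simp
          rw [h3] at h2
          rw [← ofReal_one]
          refine (continuous_ofReal.tendsto _).comp (h2.congr fun t => ?_)
          rw [div_eq_mul_inv, mul_inv]; ring) y
      rw [Phi_one] at h1
      refine h1.congr' ?_
      filter_upwards [self_mem_nhdsWithin] with t ht
      refine m.inj ?_
      rw [s.ev_Phi m (hg t ht), hq t ht, h, map_neg, P_mul, ← neg_one_smul ℂ, ← P_smul]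
      congr 2
      funext n
      have h1 : (t : ℂ) ≠ 0 := by exact_mod_cast ht.out.ne'
      have h2 : (dd n : ℂ) ≠ 0 := by exact_mod_cast (dd_pos n).ne'
      rw [ofReal_mul, ofReal_div, ofReal_mul, ofReal_sub, ofReal_sub, ofReal_inv, ofReal_one]
      field_simp
      ring
    · intro h
      funext a
      have h1 := ((m.evc a).continuous.tendsto y).comp h
      have h2 := s.P_tendsto (l := 𝓝[>] (0 : ℝ)) (g0 := fun n => (-1 : ℂ) * dd n)
        (g := fun t n => ((t⁻¹ * (Real.exp (-(t * dd n)) - 1) : ℝ) : ℂ)) (fun n => by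
          have := (continuous_ofReal.tendsto _).comp (hasDeriv_aux (dd n))
          rwa [ofReal_neg, ← neg_one_mul] at this) (m.ev x) a
      rw [P_smul, neg_one_smul] at h2
      refine tendsto_nhds_unique h1 (h2.congr' ?_)
      filter_upwards [self_mem_nhdsWithin] with t ht
      rw [← hq t ht]; rfl

lemma ray_re {φ r : ℝ} (hr : 0 ≤ r) :
    ((r : ℂ) * exp (φ * I)).re ≤ |Real.cos φ| * ‖(r : ℂ) * exp (φ * I)‖ := by
  rw [re_ray, norm_ray r φ hr, mul_comm]
  exact mul_le_mul_of_nonneg_right (le_abs_self _) hr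

lemma integrable_res {σ φ : ℝ} (hσ : σ ≤ Real.pi) (h0 : 0 < |φ|) (hφ : |φ| < σ)
    {f : ℂ → ℂ} (hf : H0 σ f) : IntegrableOn (fun r : ℝ =>
      (f (r * exp (φ * I)) * exp (φ * I)) • res (s.op m) (r * exp (φ * I))) (Ioi 0) := by
  have h1 : |φ| < Real.pi := by linarith
  have hc := abs_cos_lt_one h0 h1
  have hc' : -1 ≤ |Real.cos φ| := by linarith [abs_nonneg (Real.cos φ)]
  have hk := kap_pos hc
  have hC := s.C0_nonneg
  set D := (1 + s.C0) * (kap |Real.cos φ| ^ 2)⁻¹ with hD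
  have hb : ∀ r : ℝ, 0 < r → ‖res (s.op m) (r * exp (φ * I))‖ ≤ D * (r + 1)⁻¹ := by
    intro r hr
    have := s.norm_Phi m (good_res hc hc' (ray_re (φ := φ) hr.le))
    rw [norm_ray r φ hr.le, ← mul_assoc] at this
    rwa [s.res_eq m hc hc' (ray_re hr.le)]
  have hb' : ∀ r : ℝ, 0 < r → ‖res (s.op m) (r * exp (φ * I))‖ ≤ D := fun r hr =>
    (hb r hr).trans (mul_le_of_le_one_right (by positivity) (inv_le_one_of_one_le₀ (by linarith)))
  refine integrable_ray_smul hσ hφ hf (R := fun r : ℝ => res (s.op m) (r * exp (φ * I))) ?_ hb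
  refine LipschitzOnWith.continuousOn (K := ⟨D * D, by positivity⟩)
    (LipschitzOnWith.of_dist_le_mul fun r hr u hu => ?_)
  have e : res (s.op m) (r * exp (φ * I)) - res (s.op m) (u * exp (φ * I)) =
      (((u - r : ℝ) : ℂ) * exp (φ * I)) •
        (res (s.op m) (r * exp (φ * I)) * res (s.op m) (u * exp (φ * I))) := by
    have gr := good_res hc hc' (ray_re (φ := φ) hr.out.le)
    have gu := good_res hc hc' (ray_re (φ := φ) hu.out.le)
    rw [s.res_eq m hc hc' (ray_re hr.out.le), s.res_eq m hc hc' (ray_re hu.out.le)]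
    ext x
    refine m.inj ?_
    rw [sub_apply, smul_apply,
      mul_apply_eq_comp, map_sub, map_smul, s.ev_Phi m gr, s.ev_Phi m gr,
      s.ev_Phi m gu, P_mul, ← P_smul, ← P_sub]
    congr 2
    funext n
    have := dd_pos n
    have := hr.out
    have := hu.out
    have n1 : (r : ℂ) * exp (φ * I) - dd n ≠ 0 := norm_pos_iff.1
      (lt_of_lt_of_le (by positivity) (ray_sub h0 h1 hr.out.le (dd_pos n).le))
    have n2 : (u : ℂ) * exp (φ * I) - dd n ≠ 0 := norm_pos_iff.1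
      (lt_of_lt_of_le (by positivity) (ray_sub h0 h1 hu.out.le (dd_pos n).le))
    push_cast
    generalize exp (φ * I) = w at n1 n2 ⊢
    rw [inv_sub_inv n1 n2, div_eq_mul_inv, mul_inv]
    ring
  rw [dist_eq_norm, e, norm_smul, norm_mul, norm_exp_ofReal_mul_I, mul_one, norm_real,
    Real.dist_eq, Real.norm_eq_abs, abs_sub_comm, mul_comm]
  refine mul_le_mul_of_nonneg_right ((norm_mul_le _ _).trans ?_) (abs_nonneg _)
  exact mul_le_mul (hb' r hr) (hb' u hu) (norm_nonneg _) (by positivity)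

variable [CompleteSpace X]

lemma ev_integral {σ φ : ℝ} (hσ : σ ≤ Real.pi) (h0 : 0 < |φ|) (hφ : |φ| < σ)
    {f : ℂ → ℂ} (hf : H0 σ f) (x : X) :
    m.ev ((∫ r in Ioi (0 : ℝ),
      (f (r * exp (φ * I)) * exp (φ * I)) • res (s.op m) (r * exp (φ * I))) x) =
    s.P (fun n => ∫ r in Ioi (0 : ℝ),
      (f (r * exp (φ * I)) * exp (φ * I)) * (r * exp (φ * I) - dd n)⁻¹) (m.ev x) := by
  have h1 : |φ| < Real.pi := by linarith
  have hc := abs_cos_lt_one h0 h1
  have hc' : -1 ≤ |Real.cos φ| := by linarith [abs_nonneg (Real.cos φ)]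
  funext a
  rw [← s.P_integral (fun n => scalar_integrable hσ h0 hφ hf (one_le_dd n))]
  let L : (X →L[ℂ] X) →L[ℂ] ℂ := (m.evc a) ∘L (ContinuousLinearMap.apply ℂ X x)
  have := L.integral_comp_comm (s.integrable_res m hσ h0 hφ hf)
  refine this.symm.trans (setIntegral_congr_fun measurableSet_Ioi fun r hr => ?_)
  rw [map_smul, P_smul, s.res_eq m hc hc' (ray_re hr.out.le),
    ← s.ev_Phi m (good_res hc hc' (ray_re (φ := φ) hr.out.le))]
  rfl

lemma ev_funCalc {σ θ : ℝ} (hσ : σ ≤ Real.pi) (h0 : 0 < θ) (hθ : θ < σ)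
    {f : ℂ → ℂ} (hf : H0 σ f) (x : X) :
    m.ev (funCalc (s.op m) θ f x) = s.P (fun n => f (dd n)) (m.ev x) := by
  have hm : |(-θ)| = θ := by rw [abs_neg, abs_of_pos h0]
  have hp : |θ| = θ := abs_of_pos h0
  have e1 := s.ev_integral m (φ := -θ) hσ (by rwa [hm]) (by rwa [hm]) hf x
  have e2 := s.ev_integral m (φ := θ) hσ (by rwa [hp]) (by rwa [hp]) hf x
  have e3 := fun n => cauchy_sector hσ h0 hθ hf (one_le_dd n)
  simp only [ofReal_neg] at e1 e3
  rw [funCalc, rayInt, rayInt, smul_apply, sub_apply, map_smul, map_sub,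
    e1, e2, ← P_sub, ← P_smul]
  congr 2
  funext n
  rw [e3 n]
  have : (2 * Real.pi * I : ℂ) ≠ 0 := two_pi_I_ne_zero
  field_simp

/-- Sign-alternating functions of the level do not act boundedly. -/
def Unb : Prop := ∀ C : ℝ, ∃ (L : ℕ) (x : X), ∀ (ρ : ℕ → ℝ) (y : X), (∀ n ≤ L, 1 / 4 ≤ ρ n) →
  m.ev y = s.P (fun n => ρ n * (-1) ^ n) (m.ev x) → C * ‖x‖ < ‖y‖

lemma not_boundedHinfty (h : s.Unb m) : ¬ BoundedHinfty (s.op m) := by
  rintro ⟨σ, ⟨h1, h2⟩, θ, ⟨h3, h4⟩, C, hC⟩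
  rw [angle_eq] at h1 h3
  obtain ⟨B, hB⟩ := H0_test h1.le h2 (w := fun z => z ^ I)
    (fun z hz => ((hasStrictDerivAt_cpow_const (c := I)
      (sector_subset_slitPlane h2.le hz)).hasDerivAt.differentiableAt).differentiableWithinAt)
    (Real.exp_pos Real.pi) (fun z _ => norm_cpow_I_le z)
  obtain ⟨L, x, hx⟩ := h (C * B)
  obtain ⟨hf, hb⟩ := hB (dd L) (one_le_dd L)
  have e := s.ev_funCalc m h2.le h3 h4 hf x
  have := hx (fun n => dd n / (1 + dd n) * (dd L / (dd L + dd n))) _ (fun n hn => by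
    have h5 := one_le_dd n
    have h6 := dd_mono hn
    have h7 : 1 / 2 ≤ dd n / (1 + dd n) := by rw [div_le_div_iff₀ (by norm_num) (by linarith)]; linarith
    have h8 : 1 / 2 ≤ dd L / (dd L + dd n) := by
      rw [div_le_div_iff₀ (by norm_num) (by linarith)]; linarith
    nlinarith) (by rw [e]; simp only [dd_cpow]; push_cast; rfl)
  exact absurd this (not_lt.2 (((funCalc _ _ _).le_opNorm x).trans
    (mul_le_mul_of_nonneg_right (hC _ hf B hb) (norm_nonneg _))))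

lemma not_BIP (h : s.Unb m) : ¬ BIP (s.op m) := by
  rintro ⟨θ, ⟨h1, h2⟩, U, hU, -⟩
  rw [angle_eq] at h1
  have h3 : (θ + Real.pi) / 2 < Real.pi := by linarith
  have h4 : 0 ≤ (θ + Real.pi) / 2 := by linarith
  obtain ⟨_, hB1⟩ := H0_test h4 h3 (w := fun z => z ^ I)
    (fun z hz => ((hasStrictDerivAt_cpow_const (c := I)
      (sector_subset_slitPlane h3.le hz)).hasDerivAt.differentiableAt).differentiableWithinAt)
    (Real.exp_pos Real.pi) (fun z _ => norm_cpow_I_le z)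
  obtain ⟨_, hB2⟩ := H0_test h4 h3 (w := fun _ => 1) (by fun_prop) one_pos (fun z _ => by simp)
  have f1 : (fun z : ℂ => z / (1 + z) ^ 2 * z ^ (I * (1 : ℝ))) =
      fun z : ℂ => z / (1 + z) * ((1 : ℝ) / ((1 : ℝ) + z)) * z ^ I := by
    funext z; rw [ofReal_one, mul_one, div_mul_div_comm, mul_one, sq]
  have f2 : (fun z : ℂ => z / (1 + z) ^ 2) =
      fun z : ℂ => z / (1 + z) * ((1 : ℝ) / ((1 : ℝ) + z)) * 1 := by
    funext z; rw [ofReal_one, mul_one, div_mul_div_comm, mul_one, sq]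
  have hU1 := hU 1
  rw [f1, f2] at hU1
  obtain ⟨L, x, hx⟩ := h ‖U 1‖
  refine absurd (hx (fun _ => 1) (U 1 x) (fun _ _ => by norm_num) ?_)
    (not_lt.2 ((U 1).le_opNorm x))
  have e := congrArg (fun V : X →L[ℂ] X => s.P (fun n => (1 + dd n) ^ 2 / dd n) (m.ev (V x))) hU1
  simp only [ContinuousLinearMap.comp_apply] at e
  rw [s.ev_funCalc m h3.le h1 (by linarith) (hB2 1 le_rfl).1,
    s.ev_funCalc m h3.le h1 (by linarith) (hB1 1 le_rfl).1, P_mul, P_mul] at e
  have n1 : ∀ n, (dd n : ℂ) ≠ 0 := fun n => by exact_mod_cast (dd_pos n).ne'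
  have n2 : ∀ n, (1 + dd n : ℂ) ≠ 0 := fun n => by
    exact_mod_cast (by linarith [dd_pos n] : 1 + dd n ≠ 0)
  have g1 : (fun n => (1 + dd n : ℂ) ^ 2 / dd n *
      (dd n / (1 + dd n) * ((1 : ℝ) / ((1 : ℝ) + dd n)) * 1)) = fun _ => 1 := by
    funext n; have := n1 n; have := n2 n; push_cast; field_simp
  have g2 : (fun n => (1 + dd n : ℂ) ^ 2 / dd n *
      (dd n / (1 + dd n) * ((1 : ℝ) / ((1 : ℝ) + dd n)) * (dd n : ℂ) ^ I)) =
      fun n : ℕ => ((1 : ℝ) : ℂ) * (-1 : ℂ) ^ n := by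
    funext n; have := n1 n; have := n2 n; rw [dd_cpow]; push_cast; field_simp
  rwa [g1, g2, P_const, one_smul] at e

/-- The resolvents on the negative axis are not R-bounded. -/
def UnR : Prop := ∀ C : ℝ, ∃ (n : ℕ) (t : Fin n → ℝ) (x : Fin n → X), (∀ k, 0 < t k) ∧
  ∀ y : Fin n → X, (∀ k, m.ev (y k) = s.P (fun l => ((t k / (t k + dd l) : ℝ) : ℂ)) (m.ev (x k))) →
    C * radNorm x < radNorm y

omit [CompleteSpace X] in
lemma not_RSectorial (h : s.UnR m) : ¬ RSectorial (s.op m) := by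
  rintro ⟨ω, ⟨h1, h2⟩, C, hC⟩
  rw [angle_eq] at h1
  obtain ⟨n, t, x, ht, hx⟩ := h C
  refine absurd (hx _ fun k => ?_) (not_lt.2 (hC n
    (fun k => ((-t k : ℝ) : ℂ) • res (s.op m) (-t k : ℝ)) x
    fun k => ⟨_, neg_notMem_closure h1.le h2 (ht k), rfl⟩))
  have hl : ((-t k : ℝ) : ℂ).re ≤ 0 * ‖((-t k : ℝ) : ℂ)‖ := by simp [(ht k).le]
  rw [s.res_eq m one_pos (by norm_num) hl, smul_apply, map_smul,
    s.ev_Phi m (good_res one_pos (by norm_num) hl), ← P_smul]
  congr 2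
  funext l
  push_cast
  rw [← neg_add', inv_neg, neg_mul_neg, div_eq_mul_inv]

end Sys

end Pool.Agent.MP_a83649_an
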