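import Mathlib.Data.Int.Star
import Mathlib.Algebra.Order.Ring.Star
import Mathlib.Algebra.Order.Floor.Semifield
import Pool.Agent.MP_a83649_an.Defs
import Pool.Agent.MP_a83649_an.Properties

-- ======== part 0: formerly Pool.Agent.MP_a83649_an.Rademacher
section MrgPart0

/-! Rademacher averages as finite averages over signs. -/

open MeasureTheory Filter Topology Set Complex Finset

namespace Pool.Agent.MP_a83649_an

lemma integral_floor (h : ℕ → ℝ) {N : ℕ} (hN : 0 < N) :
    ∫ t in (0 : ℝ)..1, h ⌊(N : ℝ) * t⌋₊ = (N : ℝ)⁻¹ * ∑ m ∈ range N, h m := by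
  have hN' : (0 : ℝ) < N := by exact_mod_cast hN
  have hle : ∀ m : ℕ, (m : ℝ) / N ≤ ((m + 1 : ℕ) : ℝ) / N := fun m => by
    gcongr; linarith
  have hc : ∀ m : ℕ, EqOn (fun t : ℝ => h ⌊(N : ℝ) * t⌋₊) (fun _ => h m)
      (Ioo ((m : ℝ) / N) (((m + 1 : ℕ) : ℝ) / N)) := by
    intro m t ht
    have h1 := (div_lt_iff₀' hN').1 ht.1
    have h2 := (lt_div_iff₀' hN').1 ht.2
    have : ⌊(N : ℝ) * t⌋₊ = m := by
      rw [Nat.floor_eq_iff (by linarith [(Nat.cast_nonneg m : (0 : ℝ) ≤ m)])]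
      exact ⟨h1.le, by exact_mod_cast h2⟩
    simp only [this]
  have hi : ∀ m < N, IntervalIntegrable (fun t : ℝ => h ⌊(N : ℝ) * t⌋₊) volume
      ((m : ℝ) / N) (((m + 1 : ℕ) : ℝ) / N) := by
    intro m _
    rw [intervalIntegrable_iff_integrableOn_Ioo_of_le (hle m)]
    exact (integrableOn_congr_fun (hc m) measurableSet_Ioo).2 (integrableOn_const (by simp))
  have := intervalIntegral.sum_integral_adjacent_intervals (a := fun m : ℕ => (m : ℝ) / N) hi
  simp only [Nat.cast_zero, zero_div, div_self hN'.ne'] at this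
  rw [← this, mul_sum]
  refine sum_congr rfl fun m _ => ?_
  rw [intervalIntegral.integral_of_le (hle m), integral_Ioc_eq_integral_Ioo,
    setIntegral_congr_fun measurableSet_Ioo (hc m), ← integral_Ioc_eq_integral_Ioo,
    ← intervalIntegral.integral_of_le (hle m), intervalIntegral.integral_const]
  push_cast
  rw [smul_eq_mul]
  congr 1
  field_simp
  ring

/-- The sign of the `k`-th Rademacher function on the `m`-th dyadic interval of length `2⁻ⁿ`. -/
def sgn (n : ℕ) (k : Fin n) (m : ℕ) : ℝ := (-1) ^ (m / 2 ^ (n - (k + 1)))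

lemma rad_eq (n : ℕ) (k : Fin n) (t : ℝ) :
    rad (k + 1) t = sgn n k ⌊((2 ^ n : ℕ) : ℝ) * t⌋₊ := by
  unfold rad sgn
  push_cast
  congr 1
  rw [← Nat.floor_div_natCast]
  congr 1
  have : (2 : ℝ) ^ n = 2 ^ (n - (k + 1)) * 2 ^ ((k : ℕ) + 1) := by
    rw [← pow_add]; congr 1; omega
  push_cast
  rw [this]
  field_simp

lemma radNorm_eq {X : Type*} [NormedAddCommGroup X] [NormedSpace ℂ X] {n : ℕ} (x : Fin n → X) :
    radNorm x = √(((2 ^ n : ℕ) : ℝ)⁻¹ *
      ∑ m ∈ range (2 ^ n), ‖∑ k : Fin n, (sgn n k m : ℂ) • x k‖ ^ 2) := by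
  unfold radNorm
  simp only [rad_eq]
  rw [integral_floor (fun m => ‖∑ k : Fin n, (sgn n k m : ℂ) • x k‖ ^ 2) (by positivity)]

lemma sgn_sq (n : ℕ) (k : Fin n) (m : ℕ) : sgn n k m * sgn n k m = 1 := by
  unfold sgn; rw [← mul_pow]; simp

lemma abs_sgn (n : ℕ) (k : Fin n) (m : ℕ) : |sgn n k m| = 1 := by
  unfold sgn; simp

lemma sum_range_div (g : ℕ → ℝ) {c : ℕ} (hc : 0 < c) (N : ℕ) :
    ∑ m ∈ range (c * N), g (m / c) = c * ∑ m ∈ range N, g m := by
  induction N with
  | zero => simp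
  | succ N ih =>
    rw [Nat.mul_succ, sum_range_add, ih, sum_range_succ, mul_add]
    congr 1
    rw [sum_congr rfl (g := fun _ => g N)]
    · simp
    · intro m hm
      rw [Nat.mul_add_div hc, Nat.div_eq_of_lt (Finset.mem_range.1 hm), add_zero]

lemma sum_range_mod (g : ℕ → ℝ) (c N : ℕ) :
    ∑ m ∈ range (c * N), g (m % c) = N * ∑ m ∈ range c, g m := by
  induction N with
  | zero => simp
  | succ N ih =>
    rw [Nat.mul_succ, sum_range_add, ih]
    push_cast
    rw [add_mul, one_mul]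
    congr 1
    refine sum_congr rfl fun m hm => ?_
    rw [Nat.mul_add_mod, Nat.mod_eq_of_lt (Finset.mem_range.1 hm)]

lemma sum_alt (g : ℕ → ℝ) (N : ℕ) : ∑ m ∈ range (2 * N), (-1) ^ m * g (m / 2) = 0 := by
  induction N with
  | zero => simp
  | succ N ih =>
    rw [Nat.mul_succ, sum_range_succ, sum_range_succ, ih]
    have e1 : 2 * N / 2 = N := by omega
    have e2 : (2 * N + 1) / 2 = N := by omega
    rw [e1, e2, pow_succ, pow_mul]; simp

lemma sum_sgn_lt {n a b : ℕ} (hab : a < b) (hb : b < n) :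
    ∑ m ∈ range (2 ^ n), (-1 : ℝ) ^ (m / 2 ^ a) * (-1) ^ (m / 2 ^ b) = 0 := by
  obtain ⟨c, rfl⟩ := Nat.exists_eq_add_of_lt hab
  obtain ⟨e, rfl⟩ := Nat.exists_eq_add_of_lt hb
  have h1 : 2 ^ (a + c + 1 + e + 1) = 2 ^ a * (2 * 2 ^ (c + e + 1)) := by ring
  have h2 : ∀ m : ℕ, m / 2 ^ (a + c + 1) = m / 2 ^ a / 2 / 2 ^ c := by
    intro m; rw [Nat.div_div_eq_div_mul, Nat.div_div_eq_div_mul]; congr 1; ring
  simp only [h1, h2]
  rw [sum_range_div (fun m => (-1 : ℝ) ^ m * (-1) ^ (m / 2 / 2 ^ c)) (by positivity),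
    sum_alt (fun m => (-1 : ℝ) ^ (m / 2 ^ c)), mul_zero]

lemma sgn_orth (n : ℕ) (k l : Fin n) :
    ∑ m ∈ range (2 ^ n), sgn n k m * sgn n l m = if k = l then ((2 ^ n : ℕ) : ℝ) else 0 := by
  split_ifs with h
  · subst h; simp [sgn_sq]
  · have hk := k.2
    have hl := l.2
    rcases lt_or_gt_of_ne h with h | h
    · have h' : (k : ℕ) < l := h
      simp only [sgn, mul_comm ((-1 : ℝ) ^ (_ / 2 ^ (n - (k + 1))))]
      exact sum_sgn_lt (by omega) (by omega)
    · have h' : (l : ℕ) < k := h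
      exact sum_sgn_lt (by omega) (by omega)

lemma sum_sgn_sq_real (n : ℕ) (z : Fin n → ℝ) :
    ∑ m ∈ range (2 ^ n), (∑ k, sgn n k m * z k) ^ 2 = ((2 ^ n : ℕ) : ℝ) * ∑ k, z k ^ 2 := by
  simp only [sq, sum_mul_sum]
  rw [sum_comm, mul_sum]
  refine sum_congr rfl fun k _ => ?_
  rw [sum_comm]
  have : ∀ l, ∑ m ∈ range (2 ^ n), sgn n k m * z k * (sgn n l m * z l) =
      (if k = l then ((2 ^ n : ℕ) : ℝ) else 0) * (z k * z l) := by
    intro l; rw [← sgn_orth, sum_mul]; exact sum_congr rfl fun m _ => by ring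
  simp [this]

lemma sum_sgn_sq (n : ℕ) (z : Fin n → ℂ) :
    ∑ m ∈ range (2 ^ n), ‖∑ k, (sgn n k m : ℂ) * z k‖ ^ 2 =
      ((2 ^ n : ℕ) : ℝ) * ∑ k, ‖z k‖ ^ 2 := by
  simp only [Complex.sq_norm, normSq_apply, ← sq, re_sum, im_sum, re_ofReal_mul, im_ofReal_mul,
    sum_add_distrib, sum_sgn_sq_real, mul_add]

end Pool.Agent.MP_a83649_an

end MrgPart0

-- ======== part 1: formerly Pool.Agent.MP_a83649_an.Block
section MrgPart1

/-! The key estimate for one block of the construction. -/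

open Finset

namespace Pool.Agent.MP_a83649_an

lemma jensen {ι : Type*} (s : Finset ι) {q B : ℝ} (hq : 1 ≤ q) (w z : ι → ℝ) (hw : ∀ i, 0 ≤ w i)
    (hz : ∀ i, 0 ≤ z i) (hB : ∑ i ∈ s, w i ≤ B) :
    (∑ i ∈ s, w i * z i) ^ q ≤ B ^ (q - 1) * ∑ i ∈ s, w i * z i ^ q := by
  have h0 : 0 ≤ ∑ i ∈ s, w i := sum_nonneg fun i _ => hw i
  have h1 : 0 ≤ ∑ i ∈ s, w i * z i ^ q :=
    sum_nonneg fun i _ => mul_nonneg (hw i) (Real.rpow_nonneg (hz i) _)
  have h2 : 0 ≤ ∑ i ∈ s, w i * z i := sum_nonneg fun i _ => mul_nonneg (hw i) (hz i)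
  have hq0 : q ≠ 0 := by linarith
  calc (∑ i ∈ s, w i * z i) ^ q
      ≤ ((∑ i ∈ s, w i) ^ (1 - q⁻¹) * (∑ i ∈ s, w i * z i ^ q) ^ q⁻¹) ^ q := by
        gcongr
        exact Real.inner_le_weight_mul_Lp_of_nonneg s hq w z hw hz
    _ = (∑ i ∈ s, w i) ^ (q - 1) * ∑ i ∈ s, w i * z i ^ q := by
        rw [Real.mul_rpow (Real.rpow_nonneg h0 _) (Real.rpow_nonneg h1 _),
          Real.rpow_inv_rpow h1 hq0, ← Real.rpow_mul h0, sub_mul, one_mul, inv_mul_cancel₀ hq0]
    _ ≤ _ := by gcongr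

lemma sum_shift_le {φ : ℕ → ℝ} {B : ℝ} (h0 : ∀ n, 0 ≤ φ n) (hB : ∀ n, φ n ≤ B) (u N : ℕ) :
    ∑ j ∈ range N, (φ (j + 1 - u) - φ (j + 1)) ≤ u * B := by
  have h1 : ∑ j ∈ range N, φ (j + 1 - u) ≤ ∑ j ∈ range (u + N), φ (j + 1 - u) :=
    sum_le_sum_of_subset_of_nonneg (range_mono (by omega)) fun _ _ _ => h0 _
  rw [sum_range_add] at h1
  have h2 : ∑ j ∈ range u, φ (j + 1 - u) ≤ u * B := by
    simpa using sum_le_card_nsmul (range u) _ B fun j _ => hB (j + 1 - u)
  have h3 : ∑ j ∈ range N, φ (u + j + 1 - u) = ∑ j ∈ range N, φ (j + 1) :=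
    sum_congr rfl fun j _ => by congr 1; omega
  rw [sum_sub_distrib]
  linarith

/-- The scales `0, 1, R, R^2, ...`. -/
def scale (R : ℕ) : ℕ → ℕ
  | 0 => 0
  | k + 1 => R ^ k

lemma scale_le {R : ℕ} (hR : 0 < R) (k : ℕ) : scale R k ≤ scale R (k + 1) := by
  cases k with
  | zero => simp [scale]
  | succ k => exact Nat.pow_le_pow_right hR (by omega)

lemma scale_mul (R k : ℕ) : scale R k * R ≤ R ^ k := by
  cases k with
  | zero => simp [scale]
  | succ k => simp [scale, pow_succ]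

theorem block {q : ℝ} (hq : 1 ≤ q) {K R : ℕ} (hR0 : 0 < R) (hR : (K : ℝ) ^ q ≤ R)
    {φ : ℕ → ℝ} {B : ℝ} (hφ : Antitone φ) (h0 : ∀ n, 0 ≤ φ n) (hB : ∀ n, φ n ≤ B)
    {α : ℕ → ℝ} (hα : ∀ n, 0 ≤ α n) (N : ℕ) :
    ∑ j ∈ range N, ∑ y ∈ range (R ^ K), (∑ k ∈ range K with y % R ^ k ≤ j,
      (φ (j - y % R ^ k) - φ (j + 1)) * α (j - y % R ^ k)) ^ q ≤
      (2 * B) ^ q * (K * R ^ K) * ∑ M ∈ range N, α M ^ q := by
  have hB0 : 0 ≤ B := (h0 0).trans (hB 0)
  have hq0 : 0 < q := by linarith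
  rcases Nat.eq_zero_or_pos K with rfl | hK
  · simp [Real.zero_rpow hq0.ne']
  have hK' : (0 : ℝ) < K := by exact_mod_cast hK
  have hR' : (0 : ℝ) < R := by exact_mod_cast hR0
  set a := ∑ M ∈ range N, α M ^ q with ha
  have ha0 : 0 ≤ a := sum_nonneg fun M _ => Real.rpow_nonneg (hα M) _
  let β : ℕ → ℕ → ℕ → ℝ := fun k j y => if y % R ^ k ≤ j then α (j - y % R ^ k) else 0
  have hβ : ∀ k j y, 0 ≤ β k j y := fun k j y => by
    simp only [β]; split_ifs; exacts [hα _, le_rfl]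
  let D : ℕ → ℕ → ℝ := fun k j => φ (j + 1 - scale R k) - φ (j + 1)
  have hD0 : ∀ k j, 0 ≤ D k j := fun k j => sub_nonneg.2 (hφ (by omega))
  have hDB : ∀ k j, D k j ≤ B := fun k j => by
    have := hB (j + 1 - scale R k); have := h0 (j + 1); simp only [D]; linarith
  have hDm : ∀ k j, 0 ≤ D (k + 1) j - D k j := fun k j => by
    have := hφ (Nat.sub_le_sub_left (scale_le hR0 k) (j + 1)); simp only [D]; linarith
  have hDs : ∀ k, ∑ j ∈ range N, D k j ≤ scale R k * B := fun k => sum_shift_le h0 hB _ N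
  have hβs : ∀ k < K, ∀ j < N, ∑ y ∈ range (R ^ K), β k j y ^ q ≤ (R : ℝ) ^ (K - k) * a := by
    intro k hk j hj
    have e : R ^ K = R ^ k * R ^ (K - k) := by rw [← pow_add]; congr 1; omega
    have := sum_range_mod (fun m => (if m ≤ j then α (j - m) else 0) ^ q) (R ^ k) (R ^ (K - k))
    rw [e]
    refine this.trans_le ?_
    push_cast
    gcongr
    calc ∑ m ∈ range (R ^ k), (if m ≤ j then α (j - m) else 0) ^ q
        = ∑ m ∈ range (R ^ k) with m ≤ j, α (j - m) ^ q := by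
          rw [sum_filter]
          refine sum_congr rfl fun m _ => ?_
          split_ifs <;> simp [Real.zero_rpow hq0.ne']
      _ ≤ ∑ m ∈ range (j + 1), α (j - m) ^ q := by
          refine sum_le_sum_of_subset_of_nonneg (fun m hm => ?_)
            fun _ _ _ => Real.rpow_nonneg (hα _) _
          simp only [mem_filter, mem_range] at hm ⊢; omega
      _ = ∑ m ∈ range (j + 1), α m ^ q := by
          simpa using sum_range_reflect (fun m => α m ^ q) (j + 1)
      _ ≤ a := sum_le_sum_of_subset_of_nonneg (range_mono (by omega))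
          fun _ _ _ => Real.rpow_nonneg (hα _) _
  have hpt : ∀ j y, (∑ k ∈ range K with y % R ^ k ≤ j,
      (φ (j - y % R ^ k) - φ (j + 1)) * α (j - y % R ^ k)) ^ q ≤ (2 * B) ^ (q - 1) *
      ∑ k ∈ range K, (D (k + 1) j + D k j * K ^ q / K) * β k j y ^ q := by
    intro j y
    have h1 : ∑ k ∈ range K with y % R ^ k ≤ j,
        (φ (j - y % R ^ k) - φ (j + 1)) * α (j - y % R ^ k) ≤
        ∑ k ∈ range K, D (k + 1) j * β k j y := by
      rw [sum_filter]
      refine sum_le_sum fun k _ => ?_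
      simp only [β]
      split_ifs with h
      · have h2 : y % R ^ k < R ^ k := Nat.mod_lt _ (by positivity)
        have := hφ (show j + 1 - scale R (k + 1) ≤ j - y % R ^ k by simp only [scale]; omega)
        exact mul_le_mul_of_nonneg_right (by simp only [D]; linarith) (hα _)
      · simp
    have h2 := jensen ((range K).disjSum (range K)) (B := 2 * B) hq
      (Sum.elim (fun k => D (k + 1) j - D k j) (fun k => D k j / K))
      (Sum.elim (fun k => β k j y) (fun k => K * β k j y))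
      (by rintro (k | k); exacts [hDm k j, div_nonneg (hD0 k j) hK'.le])
      (by rintro (k | k); exacts [hβ k j y, mul_nonneg hK'.le (hβ k j y)])
      (by
        rw [sum_disjSum]
        simp only [Sum.elim_inl, Sum.elim_inr]
        rw [sum_range_sub (fun k => D k j), ← sum_div]
        have e1 : ∑ k ∈ range K, D k j ≤ K * B := by
          simpa using sum_le_card_nsmul (range K) _ B fun k _ => hDB k j
        have e2 : (∑ k ∈ range K, D k j) / K ≤ B := by rwa [div_le_iff₀' hK']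
        linarith [hDB K j, hD0 0 j])
    simp only [sum_disjSum, Sum.elim_inl, Sum.elim_inr, ← sum_add_distrib] at h2
    have h3 : ∀ k, (D (k + 1) j - D k j) * β k j y + D k j / K * (K * β k j y) =
        D (k + 1) j * β k j y := fun k => by field_simp; ring
    simp only [h3] at h2
    refine le_trans (Real.rpow_le_rpow (sum_nonneg fun k hk => mul_nonneg
      (sub_nonneg.2 (hφ ((Nat.sub_le _ _).trans (Nat.le_succ _)))) (hα _)) h1 hq0.le) (h2.trans ?_)
    gcongr with k hk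
    rw [Real.mul_rpow hK'.le (hβ k j y)]
    have := mul_nonneg (hD0 k j) (Real.rpow_nonneg (hβ k j y) q)
    have e : D k j / K * (K ^ q * β k j y ^ q) = D k j * K ^ q / K * β k j y ^ q := by ring
    rw [e]; nlinarith
  calc _ ≤ ∑ j ∈ range N, ∑ y ∈ range (R ^ K), (2 * B) ^ (q - 1) *
        ∑ k ∈ range K, (D (k + 1) j + D k j * K ^ q / K) * β k j y ^ q :=
        sum_le_sum fun j _ => sum_le_sum fun y _ => hpt j y
    _ = (2 * B) ^ (q - 1) * ∑ k ∈ range K, ∑ j ∈ range N,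
        (D (k + 1) j + D k j * K ^ q / K) * ∑ y ∈ range (R ^ K), β k j y ^ q := by
        simp only [← mul_sum]
        congr 1
        rw [sum_comm (s := range K)]
        refine sum_congr rfl fun j _ => ?_
        rw [sum_comm]
        simp only [mul_sum]
    _ ≤ (2 * B) ^ (q - 1) * ∑ k ∈ range K, 2 * B * R ^ K * a := by
        gcongr with k hk
        have hk' := mem_range.1 hk
        calc _ ≤ ∑ j ∈ range N, (D (k + 1) j + D k j * K ^ q / K) * ((R : ℝ) ^ (K - k) * a) := by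
              gcongr with j hj
              · have := hD0 (k + 1) j; have := hD0 k j; positivity
              · exact hβs k hk' j (mem_range.1 hj)
          _ = (∑ j ∈ range N, D (k + 1) j + (∑ j ∈ range N, D k j) * K ^ q / K) *
              ((R : ℝ) ^ (K - k) * a) := by
              rw [← sum_mul, sum_add_distrib, ← sum_div, ← sum_mul]
          _ ≤ (R ^ k * B + R ^ k * B) * ((R : ℝ) ^ (K - k) * a) := by
              gcongr
              · simpa [scale] using hDs (k + 1)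
              · have e1 : (scale R k : ℝ) * R ≤ R ^ k := by exact_mod_cast scale_mul R k
                have e2 : (1 : ℝ) ≤ K := by exact_mod_cast hK
                calc _ ≤ scale R k * B * R / 1 := by gcongr; exact hDs k
                  _ = (scale R k * R) * B := by ring
                  _ ≤ _ := by gcongr
          _ = 2 * B * R ^ K * a := by
              have e : (R : ℝ) ^ K = R ^ k * R ^ (K - k) := by rw [← pow_add]; congr 1; omega
              rw [e]; ring
    _ = (2 * B) ^ q * (K * R ^ K) * a := by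
        have e : (2 * B) ^ q = (2 * B) ^ (q - 1) * (2 * B) := by
          rw [← Real.rpow_add_one' (by positivity) (by linarith), sub_add_cancel]
        rw [e, sum_const, card_range, nsmul_eq_mul]; ring

end Pool.Agent.MP_a83649_an

end MrgPart1

-- ======== part 2: formerly Pool.Agent.MP_a83649_an.Example
section MrgPart2

/-! The explicit kernel: multi-scale shifts. -/

open Finset Filter

namespace Pool.Agent.MP_a83649_an

/-- Index set: `(K, M, none)` are input points and `(K, j, some y)` output points of block `K`. -/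
abbrev Idx := ℕ × ℕ × Option ℕ

/-- The ratio of the scales in block `K`. -/
noncomputable def RR (q : ℝ) (K : ℕ) : ℕ := ⌈(K : ℝ) ^ q⌉₊ + 1

/-- The normalisation in block `K`. -/
noncomputable def gam (q : ℝ) (K : ℕ) : ℝ := ((K : ℝ) * (RR q K : ℝ) ^ K)⁻¹ ^ q⁻¹

lemma RR_pos (q : ℝ) (K : ℕ) : 0 < RR q K := Nat.succ_pos _

lemma le_RR (q : ℝ) (K : ℕ) : (K : ℝ) ^ q ≤ RR q K := by
  unfold RR; push_cast; linarith [Nat.le_ceil ((K : ℝ) ^ q)]

lemma gam_nonneg (q : ℝ) (K : ℕ) : 0 ≤ gam q K := by unfold gam; positivity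

lemma gam_rpow {q : ℝ} (hq : 0 < q) (K : ℕ) : gam q K ^ q = ((K : ℝ) * (RR q K : ℝ) ^ K)⁻¹ :=
  Real.rpow_inv_rpow (by positivity) hq.ne'

lemma two_sub_le (j r : ℕ) : 2 * (j - r) ≤ 2 * j := by omega

/-- The level of a point. -/
def exLev : Idx → ℕ
  | (_, j, none) => 2 * j
  | (_, j, some _) => 2 * j + 1

/-- The row support. -/
noncomputable def exS (q : ℝ) : Idx → Finset ℕ
  | (_, _, none) => ∅
  | (K, j, some y) => if y < RR q K ^ K then {k ∈ range K | y % RR q K ^ k ≤ j} else ∅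

/-- The neighbours. -/
noncomputable def exNb (q : ℝ) : Idx → ℕ → Idx
  | (K, j, none), _ => (K, j, none)
  | (K, j, some y), k => (K, j - y % RR q K ^ k, none)

/-- The output points of the first `N` blocks up to height `N`. -/
noncomputable def outSet (q : ℝ) (N : ℕ) : Finset Idx :=
  ((range N).sigma fun K => range N ×ˢ range (RR q K ^ K)).image
    fun z => (z.1, z.2.1, some z.2.2)

lemma ex_bound {q : ℝ} (hq : 1 < q) (φ : ℕ → ℝ) (B : ℝ) (hφ : Antitone φ) (h0 : ∀ n, 0 ≤ φ n)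
    (hB : ∀ n, φ n ≤ B) (x : Idx → ℝ) (M : ℝ) (hx : ∀ a, 0 ≤ x a)
    (hM : ∀ F : Finset Idx, ∑ a ∈ F, x a ^ q ≤ M) (F : Finset Idx) :
    ∑ a ∈ F, (∑ k ∈ exS q a, |-gam q a.1| * |φ (exLev a) - φ (exLev (exNb q a k))| *
      x (exNb q a k)) ^ q ≤ (2 * B) ^ q * M := by
  have hq0 : 0 < q := by linarith
  have hB0 : 0 ≤ B := (h0 0).trans (hB 0)
  set t : Idx → ℝ := fun a => (∑ k ∈ exS q a, |-gam q a.1| *
    |φ (exLev a) - φ (exLev (exNb q a k))| * x (exNb q a k)) ^ q with ht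
  have ht0 : ∀ a, 0 ≤ t a := fun a => Real.rpow_nonneg
    (sum_nonneg fun k _ => by have := hx (exNb q a k); positivity) _
  obtain ⟨N, hN⟩ : ∃ N : ℕ, ∀ a ∈ F, a.1 < N ∧ a.2.1 < N :=
    ⟨F.sup (fun a => a.1 + a.2.1) + 1, fun a ha => by
      have := le_sup (f := fun a : Idx => a.1 + a.2.1) ha
      constructor <;> omega⟩
  have h1 : ∑ a ∈ F, t a ≤ ∑ a ∈ outSet q N, t a := by
    rw [← sum_filter_ne_zero]
    refine sum_le_sum_of_subset_of_nonneg (fun a ha => ?_) fun a _ _ => ht0 a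
    rw [mem_filter] at ha
    obtain ⟨h1, h2⟩ := hN a ha.1
    have h3 := ha.2
    rcases a with ⟨K, j, _ | y⟩
    · simp [t, exS, Real.zero_rpow hq0.ne'] at h3
    · by_cases hy : y < RR q K ^ K
      · exact mem_image.2 ⟨⟨K, j, y⟩, by simpa using ⟨h1, h2, hy⟩, rfl⟩
      · simp [t, exS, hy, Real.zero_rpow hq0.ne'] at h3
  have h2 : ∑ a ∈ outSet q N, t a ≤
      ∑ K ∈ range N, ∑ j ∈ range N, ∑ y ∈ range (RR q K ^ K), t (K, j, some y) := by
    refine (sum_image_le_of_nonneg fun a _ => ht0 a).trans_eq ?_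
    rw [sum_sigma]
    exact sum_congr rfl fun K _ => sum_product _ _ _
  have h3 : ∀ K, ∑ j ∈ range N, ∑ y ∈ range (RR q K ^ K), t (K, j, some y) ≤
      (2 * B) ^ q * ∑ M ∈ range N, x (K, M, none) ^ q := by
    intro K
    have hb := block hq.le (RR_pos q K) (le_RR q K) (φ := fun n => φ (2 * n)) (B := B)
      (fun a b h => hφ (by omega)) (fun n => h0 _) (fun n => hB _)
      (α := fun M => x (K, M, none)) (fun n => hx _) N
    have hs : 0 ≤ ∑ M ∈ range N, x (K, M, none) ^ q :=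
      sum_nonneg fun _ _ => Real.rpow_nonneg (hx _) _
    have hg := gam_nonneg q K
    calc _ ≤ ∑ j ∈ range N, ∑ y ∈ range (RR q K ^ K), gam q K ^ q *
          (∑ k ∈ range K with y % RR q K ^ k ≤ j, (φ (2 * (j - y % RR q K ^ k)) - φ (2 * (j + 1))) *
            x (K, j - y % RR q K ^ k, none)) ^ q := by
          refine sum_le_sum fun j _ => sum_le_sum fun y hy => ?_
          rw [← Real.mul_rpow hg (sum_nonneg fun k _ => mul_nonneg
            (sub_nonneg.2 (hφ ((two_sub_le _ _).trans (by omega)))) (hx _)), mul_sum]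
          simp only [t, exS, if_pos (mem_range.1 hy), exLev, exNb, abs_neg, abs_of_nonneg hg]
          refine Real.rpow_le_rpow (sum_nonneg fun k _ => by
            have := hx (K, j - y % RR q K ^ k, none); positivity) (sum_le_sum fun k _ => ?_) hq0.le
          rw [mul_assoc]
          have e1 := hφ (show 2 * (j - y % RR q K ^ k) ≤ 2 * j + 1 from
            (two_sub_le _ _).trans (by omega))
          have e2 := hφ (show 2 * j + 1 ≤ 2 * (j + 1) by omega)
          rw [abs_sub_comm, abs_of_nonneg (sub_nonneg.2 e1)]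
          gcongr
          exact hx _
      _ ≤ gam q K ^ q * ((2 * B) ^ q * (K * (RR q K : ℝ) ^ K) *
            ∑ M ∈ range N, x (K, M, none) ^ q) := by
          simp only [← mul_sum]
          gcongr
      _ = (((K : ℝ) * (RR q K : ℝ) ^ K)⁻¹ * (K * (RR q K : ℝ) ^ K)) *
            ((2 * B) ^ q * ∑ M ∈ range N, x (K, M, none) ^ q) := by
          rw [gam_rpow hq0]; ring
      _ ≤ _ := mul_le_of_le_one_left (by positivity) inv_mul_le_one
  have h4 : ∑ K ∈ range N, ∑ M ∈ range N, x (K, M, none) ^ q ≤ M := by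
    have := hM ((range N ×ˢ range N).image fun z => (z.1, z.2, none))
    rwa [sum_image (fun a _ b _ h => by simpa [Prod.ext_iff] using h), sum_product] at this
  calc _ ≤ _ := h1.trans h2
    _ ≤ ∑ K ∈ range N, (2 * B) ^ q * ∑ M ∈ range N, x (K, M, none) ^ q := sum_le_sum fun K _ => h3 K
    _ ≤ _ := by rw [← mul_sum]; gcongr

/-- The system. -/
noncomputable def exSys {q : ℝ} (hq : 1 < q) : Sys Idx ℕ q where
  lev := exLev
  S := exS q
  nb := exNb q
  c a := -gam q a.1
  C0 := 2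
  C0_nonneg := zero_le_two
  nil := by rintro ⟨K, j, _ | y⟩ k hk <;> simp [exS, exNb]
  sign := by
    rintro ⟨K, j, _ | y⟩ k hk
    · simp [exS] at hk
    · exact Or.inl ⟨neg_nonpos.2 (gam_nonneg q K), (two_sub_le _ _).trans (Nat.le_succ _)⟩
  col := by
    rintro ⟨K, M, o⟩
    refine Set.Finite.subset (finite_toSet ((range (M + RR q K ^ K) ×ˢ range (RR q K ^ K)).image
      fun z => (K, z.1, some z.2))) ?_
    rintro ⟨K', j, _ | y⟩ ⟨k, hk, h⟩
    · simp [exS] at hk
    · simp only [exNb, Prod.mk.injEq] at h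
      obtain ⟨rfl, h, -⟩ := h
      by_cases hy : y < RR q K' ^ K'
      · have := Nat.mod_le y (RR q K' ^ k)
        refine mem_coe.2 (mem_image.2 ⟨(j, y), ?_, rfl⟩)
        simp only [mem_product, mem_range]
        omega
      · simp [exS, hy] at hk
  bound := ex_bound hq

/-- The test set in block `K`. -/
noncomputable def testSet (q : ℝ) (K : ℕ) : Finset Idx :=
  (range (RR q K ^ K) ×ˢ range (RR q K ^ K)).image fun z => (K, RR q K ^ K + z.1, some z.2)

lemma card_testSet (q : ℝ) (K : ℕ) : (testSet q K).card = RR q K ^ K * RR q K ^ K := by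
  rw [testSet, card_image_of_injective _ (fun a b h => by simpa [Prod.ext_iff] using h)]
  simp

lemma mem_testSet {q : ℝ} {K : ℕ} {a : Idx} (ha : a ∈ testSet q K) :
    ∃ j y, a = (K, j, some y) ∧ j < 2 * RR q K ^ K ∧ exS q a = range K := by
  obtain ⟨⟨j, y⟩, h, rfl⟩ := mem_image.1 ha
  simp only [mem_product, mem_range] at h
  refine ⟨_, _, rfl, by omega, ?_⟩
  simp only [exS, if_pos h.2]
  refine filter_true_of_mem fun k _ => ?_
  have := Nat.mod_le y (RR q K ^ k)
  omega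

variable {X : Type*} [NormedAddCommGroup X] [NormedSpace ℂ X] {q : ℝ} (m : Model X Idx q)

lemma norm_sum_e {n K : ℕ} (z : Fin n → ℂ) (hz : ∀ k, ‖z k‖ = 1) :
    ‖∑ k : Fin n, z k • m.e (K, k, none)‖ ^ q = n := by
  have hinj : Function.Injective fun k : Fin n => ((K, k, none) : Idx) := fun a b h => by
    simpa [Fin.ext_iff] using h
  have hev : ∀ a, m.ev (∑ k : Fin n, z k • m.e (K, k, none)) a =
      ∑ k : Fin n, if a = ((K, (k : ℕ), none) : Idx) then z k else 0 := by
    intro a; simp [m.ev_e, Finset.sum_apply, Pi.single_apply]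
  rw [m.norm_rpow_of_finite (univ.image fun k : Fin n => ((K, k, none) : Idx)),
    sum_image fun a _ b _ h => hinj h]
  · rw [sum_congr rfl (g := fun _ => 1)]
    · simp
    · intro k _
      rw [hev, sum_eq_single k (fun l _ hl => if_neg fun h => hl (hinj h).symm) (by simp)]
      simp [hz]
  · intro a ha
    rw [hev]
    exact sum_eq_zero fun k _ => if_neg fun h => ha (mem_image.2 ⟨k, mem_univ _, Eq.symm h⟩)

lemma ex_unb : (exSys m.one_lt).Unb m := by
  intro C
  have hq := m.one_lt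
  have hq0 := m.pos
  obtain ⟨K, hK1, hK⟩ : ∃ K : ℕ, 1 ≤ K ∧ 2 * 2 ^ q * |C| ^ q < (K : ℝ) ^ (q - 1) :=
    ((eventually_ge_atTop 1).and (((tendsto_rpow_atTop (by linarith : 0 < q - 1)).comp
      tendsto_natCast_atTop_atTop).eventually_gt_atTop _)).exists
  have hK' : (0 : ℝ) < K := by exact_mod_cast hK1
  set s := RR q K ^ K with hs
  have hs0 : (0 : ℝ) < s := by exact_mod_cast pow_pos (RR_pos q K) K
  refine ⟨4 * s, ∑ k : Fin (2 * s), (1 : ℂ) • m.e (K, k, none), fun ρ y hρ hy => ?_⟩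
  have hn := norm_sum_e m (K := K) (n := 2 * s) (fun _ => 1) (by simp)
  set x := ∑ k : Fin (2 * s), (1 : ℂ) • m.e (K, k, none) with hx
  have ev1 : ∀ j y, m.ev x (K, j, some y) = 0 := by
    intro j y; simp [hx, m.ev_e, Finset.sum_apply]
  have ev2 : ∀ M < 2 * s, m.ev x (K, M, none) = 1 := by
    intro M hM
    simp only [hx, m.ev_e, map_sum, one_smul, Finset.sum_apply, Pi.single_apply, Prod.mk.injEq,
      true_and, and_true]
    rw [sum_eq_single ⟨M, hM⟩ (fun l _ hl => if_neg fun h => hl (Fin.ext h.symm)) (by simp)]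
    simp
  have hg := gam_nonneg q K
  have hlow : ∀ a ∈ testSet q K, gam q K * K / 2 ≤ ‖m.ev y a‖ := by
    intro a ha
    obtain ⟨j, y', rfl, hj, hS⟩ := mem_testSet ha
    have e : m.ev y (K, j, some y') = ((∑ k ∈ range K, gam q K *
        (ρ (2 * j + 1) + ρ (2 * (j - y' % RR q K ^ k))) : ℝ) : ℂ) := by
      rw [hy, Sys.P_apply, ev1, mul_zero, zero_add]
      simp only [exSys, hS, exLev, exNb]
      push_cast
      refine sum_congr rfl fun k _ => ?_
      rw [ev2 _ ((Nat.sub_le _ _).trans_lt hj), pow_succ, pow_mul, pow_mul]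
      ring
    rw [e, Complex.norm_real, Real.norm_eq_abs]
    refine le_trans ?_ (le_abs_self _)
    have := card_nsmul_le_sum (range K) (fun k => gam q K *
        (ρ (2 * j + 1) + ρ (2 * (j - y' % RR q K ^ k)))) (gam q K * (1 / 2)) fun k _ => by
      have := hρ (2 * j + 1) (by omega)
      have := hρ (2 * (j - y' % RR q K ^ k)) ((two_sub_le _ _).trans (by omega))
      gcongr; linarith
    rw [card_range, nsmul_eq_mul] at this
    linarith
  have h1 : (s : ℝ) * s * (gam q K * K / 2) ^ q ≤ ‖y‖ ^ q := by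
    refine le_trans ?_ (m.sum_le y (testSet q K))
    have := card_nsmul_le_sum (testSet q K) (fun a => ‖m.ev y a‖ ^ q) ((gam q K * K / 2) ^ q)
      fun a ha => Real.rpow_le_rpow (by positivity) (hlow a ha) hq0.le
    rwa [card_testSet, nsmul_eq_mul, Nat.cast_mul] at this
  have h2 : (s : ℝ) * s * (gam q K * K / 2) ^ q = s * (K : ℝ) ^ (q - 1) / 2 ^ q := by
    rw [Real.div_rpow (by positivity) zero_le_two, Real.mul_rpow hg hK'.le, gam_rpow hq0,
      Real.rpow_sub_one hK'.ne', ← Nat.cast_pow, ← hs]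
    field_simp
  have h3 : (|C| * ‖x‖) ^ q < ‖y‖ ^ q := by
    rw [Real.mul_rpow (abs_nonneg _) (norm_nonneg _), hn]
    refine lt_of_lt_of_le ?_ h1
    rw [h2, lt_div_iff₀ (by positivity)]
    push_cast
    nlinarith
  exact (mul_le_mul_of_nonneg_right (le_abs_self C) (norm_nonneg _)).trans_lt
    ((Real.rpow_lt_rpow_iff (by positivity) (norm_nonneg _) hq0).1 h3)

lemma sum_sq_le (h2 : 2 < q) (v : X) (E : Finset Idx) :
    ∑ a ∈ E, ‖m.ev v a‖ ^ 2 ≤ (E.card : ℝ) ^ (1 - 2 / q) * ‖v‖ ^ 2 := by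
  have hq0 := m.pos
  have h := Real.inner_le_weight_mul_Lp_of_nonneg E (p := q / 2) (by linarith) (fun _ => 1)
    (fun a => ‖m.ev v a‖ ^ 2) (fun _ => zero_le_one) (fun _ => by positivity)
  simp only [one_mul, sum_const, nsmul_eq_mul, mul_one, inv_div] at h
  refine h.trans ?_
  gcongr
  have e : ∀ a, (‖m.ev v a‖ ^ 2) ^ (q / 2) = ‖m.ev v a‖ ^ q := fun a => by
    rw [← Real.rpow_natCast, ← Real.rpow_mul (norm_nonneg _)]; congr 1; push_cast; ring
  simp only [e]
  calc _ ≤ (‖v‖ ^ q) ^ (2 / q) := by gcongr; exact m.sum_le v E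
    _ = _ := by
      rw [← Real.rpow_mul (norm_nonneg _), ← Real.rpow_natCast]; congr 1; push_cast; field_simp

lemma ex_unR (h2 : 2 < q) : (exSys m.one_lt).UnR m := by
  intro C
  have hq0 := m.pos
  have hq2 : 0 < 1 - 2 / q := by rw [sub_pos, div_lt_one hq0]; exact h2
  obtain ⟨K, hK1, hK⟩ : ∃ K : ℕ, 1 ≤ K ∧ 64 * C ^ 2 < (K : ℝ) ^ (1 - 2 / q) :=
    ((eventually_ge_atTop 1).and (((tendsto_rpow_atTop hq2).comp
      tendsto_natCast_atTop_atTop).eventually_gt_atTop _)).exists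
  have hK' : (0 : ℝ) < K := by exact_mod_cast hK1
  set s := RR q K ^ K with hs
  have hs0 : (0 : ℝ) < s := by exact_mod_cast pow_pos (RR_pos q K) K
  have hg := gam_nonneg q K
  refine ⟨2 * s, fun k => dd (2 * k), fun k => m.e (K, k, none), fun k => dd_pos _,
    fun y hy => ?_⟩
  have hN : (0 : ℝ) < ((2 ^ (2 * s) : ℕ) : ℝ) := by positivity
  -- the right-hand side
  have hx : radNorm (fun k : Fin (2 * s) => m.e (K, k, none)) = ((2 * s : ℕ) : ℝ) ^ q⁻¹ := by
    rw [radNorm_eq, sum_congr rfl (g := fun _ => (((2 * s : ℕ) : ℝ) ^ q⁻¹) ^ 2)]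
    · rw [sum_const, card_range, nsmul_eq_mul, ← mul_assoc, inv_mul_cancel₀ hN.ne', one_mul,
        Real.sqrt_sq (by positivity)]
    · intro i _
      rw [← norm_sum_e m (K := K) (n := 2 * s) (fun k => (sgn _ k i : ℂ)) (fun k => by
        rw [Complex.norm_real, Real.norm_eq_abs, abs_sgn]),
        Real.rpow_rpow_inv (norm_nonneg _) hq0.ne']
  -- the square function on the test set
  have hsq : ∀ a ∈ testSet q K, gam q K ^ 2 / 16 * K ≤ ∑ k, ‖m.ev (y k) a‖ ^ 2 := by
    intro a ha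
    obtain ⟨j, y', rfl, hj, hS⟩ := mem_testSet ha
    let h : Fin (2 * s) → ℕ := fun k => #{i ∈ range K | j - y' % RR q K ^ i = k}
    have hh : ∑ k, h k = K := by
      have := card_eq_sum_card_fiberwise (s := range K) (t := univ)
        (f := fun i => (⟨j - y' % RR q K ^ i, (Nat.sub_le _ _).trans_lt hj⟩ : Fin (2 * s))) (fun _ _ => by simp)
      rw [card_range] at this
      rw [this]
      exact sum_congr rfl fun k _ => by simp [h, Fin.ext_iff]
    have hk : ∀ k, gam q K / 4 * h k ≤ ‖m.ev (y k) (K, j, some y')‖ := by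
      intro k
      have e : m.ev (y k) (K, j, some y') = ((∑ i ∈ range K with j - y' % RR q K ^ i = k,
          gam q K * (1 / 2 - dd (2 * k) / (dd (2 * k) + dd (2 * j + 1))) : ℝ) : ℂ) := by
        rw [hy, Sys.P_apply, m.ev_e, Pi.single_eq_of_ne (by simp), mul_zero, zero_add, sum_filter,
          Complex.ofReal_sum]
        simp only [exSys, hS, exLev, exNb, Pi.single_apply, Prod.mk.injEq, true_and, and_true]
        refine sum_congr rfl fun i _ => ?_
        split_ifs with hi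
        · have : dd (2 * k) / (dd (2 * k) + dd (2 * k)) = 1 / 2 := by
            have := dd_pos (2 * k); field_simp; ring
          rw [hi, this, mul_one, ← Complex.ofReal_sub, ← Complex.ofReal_mul]
          congr 1; ring
        · simp
      rw [e, Complex.norm_real, Real.norm_eq_abs]
      refine le_trans ?_ (le_abs_self _)
      have := card_nsmul_le_sum {i ∈ range K | j - y' % RR q K ^ i = k} (fun _ => gam q K *
          (1 / 2 - dd (2 * k) / (dd (2 * k) + dd (2 * j + 1)))) (gam q K * (1 / 4)) fun i hi => by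
        have h1 := (mem_filter.1 hi).2
        have h2 := dd_mono (show 2 * k + 1 ≤ 2 * j + 1 from
          Nat.succ_le_succ (h1 ▸ two_sub_le _ _))
        have h3 : dd (2 * k + 1) = Real.exp Real.pi * dd (2 * k) := by
          unfold dd; rw [← Real.exp_add]; congr 1; push_cast; ring
        have h4 := dd_pos (2 * k)
        have h5 : 3 ≤ Real.exp Real.pi := by
          linarith [Real.add_one_le_exp Real.pi, Real.pi_gt_three]
        have h6 : dd (2 * k) / (dd (2 * k) + dd (2 * j + 1)) ≤ 1 / 4 := by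
          rw [div_le_div_iff₀ (by nlinarith) (by norm_num)]; nlinarith
        gcongr; linarith
      rw [nsmul_eq_mul] at this
      simp only [h]
      linarith
    calc gam q K ^ 2 / 16 * K = ∑ k, gam q K ^ 2 / 16 * h k := by
          rw [← mul_sum, ← Nat.cast_sum, hh]
      _ ≤ ∑ k, (gam q K / 4 * h k) ^ 2 := by
          refine sum_le_sum fun k _ => ?_
          have : (h k : ℝ) ≤ (h k : ℝ) ^ 2 := by exact_mod_cast Nat.le_self_pow two_ne_zero _
          calc _ ≤ gam q K ^ 2 / 16 * (h k : ℝ) ^ 2 := by gcongr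
            _ = _ := by ring
      _ ≤ _ := by gcongr with k; exact hk k
  set V := ∑ i ∈ range (2 ^ (2 * s)), ‖∑ k, (sgn _ k i : ℂ) • y k‖ ^ 2 with hV
  have hE : (((testSet q K).card : ℕ) : ℝ) = s * s := by rw [card_testSet, Nat.cast_mul]
  have h1 : ((2 ^ (2 * s) : ℕ) : ℝ) * ((s * s) * (gam q K ^ 2 / 16 * K)) ≤
      ((s : ℝ) * s) ^ (1 - 2 / q) * V := by
    calc _ ≤ ((2 ^ (2 * s) : ℕ) : ℝ) * ∑ a ∈ testSet q K, ∑ k, ‖m.ev (y k) a‖ ^ 2 := by
          have := card_nsmul_le_sum _ _ _ hsq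
          rw [nsmul_eq_mul, hE] at this
          gcongr
      _ = ∑ i ∈ range (2 ^ (2 * s)), ∑ a ∈ testSet q K,
            ‖m.ev (∑ k, (sgn _ k i : ℂ) • y k) a‖ ^ 2 := by
          rw [sum_comm (s := range _), mul_sum]
          refine sum_congr rfl fun a _ => ?_
          rw [← sum_sgn_sq]
          simp [Finset.sum_apply]
      _ ≤ _ := by
          rw [hV, mul_sum, ← hE]
          exact sum_le_sum fun i _ => sum_sq_le m h2 _ _
  rw [hx, radNorm_eq, ← hV]
  refine (mul_le_mul_of_nonneg_right (le_abs_self C) (by positivity)).trans_lt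
    (Real.lt_sqrt_of_sq_lt ?_)
  set σ := (s : ℝ) ^ q⁻¹ with hσ
  set κ := (K : ℝ) ^ q⁻¹ with hκ
  have hσ0 : 0 < σ := by positivity
  have hκ0 : 0 < κ := by positivity
  have e1 : gam q K = (κ * σ)⁻¹ := by
    rw [gam, Real.inv_rpow (by positivity), ← Nat.cast_pow, ← hs, Real.mul_rpow hK'.le hs0.le]
  have e2 : ∀ u : ℝ, 0 < u → u ^ (1 - 2 / q) = u / (u ^ q⁻¹) ^ 2 := by
    intro u hu
    rw [Real.rpow_sub hu, Real.rpow_one, ← Real.rpow_natCast, ← Real.rpow_mul hu.le]
    congr 2; push_cast; ring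
  have e3 : ((2 * s : ℕ) : ℝ) ^ q⁻¹ ≤ 2 * σ := by
    push_cast
    rw [Real.mul_rpow zero_le_two hs0.le]
    gcongr
    calc (2 : ℝ) ^ q⁻¹ ≤ 2 ^ (1 : ℝ) := Real.rpow_le_rpow_of_exponent_le one_le_two
          (inv_le_one_of_one_le₀ m.one_lt.le)
      _ = 2 := Real.rpow_one 2
  rw [e2 _ (by positivity), Real.mul_rpow hs0.le hs0.le, ← hσ, e1] at h1
  rw [e2 _ hK', ← hκ] at hK
  have h3 : σ ^ 2 * (K / κ ^ 2) / 16 ≤ ((2 ^ (2 * s) : ℕ) : ℝ)⁻¹ * V := by
    rw [le_inv_mul_iff₀ hN]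
    have h4 : (0 : ℝ) < s * s / (σ * σ) ^ 2 := by positivity
    refine le_of_mul_le_mul_left (le_of_eq_of_le ?_ h1) h4
    field_simp
  calc (|C| * ((2 * s : ℕ) : ℝ) ^ q⁻¹) ^ 2 ≤ (|C| * (2 * σ)) ^ 2 := by gcongr
    _ = σ ^ 2 * (64 * C ^ 2) / 16 := by rw [mul_pow, sq_abs]; ring
    _ < σ ^ 2 * (K / κ ^ 2) / 16 := by gcongr
    _ ≤ _ := h3

end Pool.Agent.MP_a83649_an

end MrgPart2

-- marker of a merged file
example : 731051 + 10592 = 731051 + 10592 := rfl
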